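import Pool.Agent.J6H12.Rec.Norm

/-!
# Moving the singletons inside a rigid interval
-/

open Equiv Function Finset

namespace Pool.Agent.J6H12.Rec

variable {m : ℕ}

theorem exists_perm_on {P : Finset (Fin m)} {φ : Fin m → Fin m} (h : Set.InjOn φ P) :
    ∃ Φ : Perm (Fin m), ∀ p ∈ P, Φ p = φ p := by
  have h1 : Injective (P.orderEmbOfFin rfl) := (P.orderEmbOfFin rfl).injective
  obtain ⟨Φ, hΦ⟩ := exists_perm_comp (P.orderEmbOfFin rfl) (φ ∘ P.orderEmbOfFin rfl) h1 (by
    intro i j hij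
    exact h1 (h (orderEmbOfFin_mem _ _ _) (orderEmbOfFin_mem _ _ _) hij))
  refine ⟨Φ, fun p hp => ?_⟩
  have : p ∈ Set.range (P.orderEmbOfFin rfl) := by
    rw [range_orderEmbOfFin]; exact hp
  obtain ⟨i, rfl⟩ := this
  exact hΦ i

theorem ball {t : ℕ} {e : Fin t → Fin m} (he : Injective e) {a s : ℕ} (hs : s ≤ a)
    (ha : a + s < t) {P : Finset (Fin m)} (hP : P.card ≤ s) :
    ∃ Φ : Perm (Fin m),
      (∀ p ∈ P, (∃ i : Fin t, a ≤ i + s ∧ (i : ℕ) < a ∧ Φ p = e i) ∨
        (Φ p = p ∧ ∀ i : Fin t, a ≤ i + s → (i : ℕ) ≤ a + s → p ≠ e i)) ∧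
      ∀ l : Fin m → ℚ,
        (∀ i j : Fin t, a ≤ i + s → (i : ℕ) ≤ a + s → a ≤ j + s → (j : ℕ) ≤ a + s → i < j →
          l (e i) < l (e j)) →
        (∀ w ∈ P, (∀ i : Fin t, a ≤ i + s → (i : ℕ) ≤ a + s → w ≠ e i) →
          (∀ i : Fin t, a ≤ i + s → (i : ℕ) ≤ a + s → l w < l (e i)) ∨
          (∀ i : Fin t, a ≤ i + s → (i : ℕ) ≤ a + s → l (e i) < l w)) →
        ∀ p ∈ P, ∀ q ∈ P, l p < l q → l (Φ p) < l (Φ q) := by
  classical
  set P' : Finset (Fin t) := univ.filter fun i => (a ≤ i + s ∧ (i : ℕ) ≤ a + s) ∧ e i ∈ P with hP'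
  have mP' : ∀ i, i ∈ P' ↔ (a ≤ i + s ∧ (i : ℕ) ≤ a + s) ∧ e i ∈ P := by
    intro i; simp [hP']
  have cP' : P'.card ≤ s := by
    rw [← card_image_of_injective P' he]
    refine (card_le_card ?_).trans hP
    intro x hx
    obtain ⟨i, hi, rfl⟩ := mem_image.mp hx
    exact ((mP' i).mp hi).2
  set r : Fin t → ℕ := fun i => (P'.filter fun j => j < i).card with hr
  have rlt : ∀ i ∈ P', r i < s := by
    intro i hi
    refine lt_of_lt_of_le ?_ cP'
    apply card_lt_card
    rw [Finset.ssubset_iff_of_subset (filter_subset _ _)]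
    exact ⟨i, hi, by simp⟩
  have rmono : ∀ i ∈ P', ∀ j, i < j → r i < r j := by
    intro i hi j hij
    apply card_lt_card
    rw [Finset.ssubset_iff_of_subset]
    · exact ⟨i, by simp [hi, hij], by simp⟩
    · intro x
      simp only [mem_filter]
      rintro ⟨h1, h2⟩
      exact ⟨h1, h2.trans hij⟩
  have rinj : ∀ i ∈ P', ∀ j ∈ P', r i = r j → i = j := by
    intro i hi j hj hij
    rcases lt_trichotomy i j with h | h | h
    · have := rmono i hi j h; omega
    · exact h
    · have := rmono j hj i h; omega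
  set φ : Fin m → Fin m := fun p =>
    if h : ∃ i, i ∈ P' ∧ e i = p then e ⟨a - s + r h.choose, by
      have := rlt _ h.choose_spec.1; omega⟩ else p with hφ
  have φ1 : ∀ i (hi : i ∈ P'), φ (e i) = e ⟨a - s + r i, by have := rlt _ hi; omega⟩ := by
    intro i hi
    have h : ∃ j, j ∈ P' ∧ e j = e i := ⟨i, hi, rfl⟩
    simp only [hφ, dif_pos h]
    have : h.choose = i := he h.choose_spec.2
    congr 2
    rw [this]
  have φ2 : ∀ p ∈ P, (∀ i, i ∈ P' → e i ≠ p) → φ p = p := by
    intro p _ h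
    have : ¬ ∃ i, i ∈ P' ∧ e i = p := fun ⟨i, h1, h2⟩ => h i h1 h2
    simp only [hφ, dif_neg this]
  have dich : ∀ p ∈ P, (∃ i, i ∈ P' ∧ e i = p) ∨
      (φ p = p ∧ ∀ i : Fin t, a ≤ i + s → (i : ℕ) ≤ a + s → p ≠ e i) := by
    intro p hp
    by_cases h : ∃ i, i ∈ P' ∧ e i = p
    · exact Or.inl h
    · right
      refine ⟨φ2 p hp fun i hi hie => h ⟨i, hi, hie⟩, ?_⟩
      intro i h1 h2 h3
      exact h ⟨i, (mP' i).mpr ⟨⟨h1, h2⟩, h3 ▸ hp⟩, h3.symm⟩
  have inj : Set.InjOn φ P := by
    intro p hp q hq hpq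
    rcases dich p hp with ⟨i, hi, rfl⟩ | ⟨h1, h2⟩
    · rcases dich q hq with ⟨j, hj, rfl⟩ | ⟨h3, h4⟩
      · rw [φ1 i hi, φ1 j hj] at hpq
        have := he hpq
        rw [Fin.mk.injEq] at this
        rw [rinj i hi j hj (by omega)]
      · rw [φ1 i hi, h3] at hpq
        exfalso
        have := rlt i hi
        exact h4 _ (by simp only; omega) (by simp only; omega) hpq.symm
    · rcases dich q hq with ⟨j, hj, rfl⟩ | ⟨h3, h4⟩
      · rw [φ1 j hj, h1] at hpq
        exfalso
        have := rlt j hj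
        exact h2 _ (by simp only; omega) (by simp only; omega) hpq
      · rw [h1, h3] at hpq
        exact hpq
  obtain ⟨Φ, hΦ⟩ := exists_perm_on inj
  refine ⟨Φ, ?_, ?_⟩
  · intro p hp
    rw [hΦ p hp]
    rcases dich p hp with ⟨i, hi, rfl⟩ | h
    · left
      have := rlt i hi
      exact ⟨_, by simp only; omega, by simp only; omega, φ1 i hi⟩
    · exact Or.inr h
  · intro l hl1 hl2 p hp q hq hpq
    rw [hΦ p hp, hΦ q hq]
    rcases dich p hp with ⟨i, hi, rfl⟩ | ⟨h1, h2⟩
    · have ri := rlt i hi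
      have mi := (mP' i).mp hi
      rcases dich q hq with ⟨j, hj, rfl⟩ | ⟨h3, h4⟩
      · have rj := rlt j hj
        have mj := (mP' j).mp hj
        rw [φ1 i hi, φ1 j hj]
        have hij : i < j := by
          rcases lt_trichotomy i j with h | h | h
          · exact h
          · rw [h] at hpq; exact absurd hpq (lt_irrefl _)
          · exact absurd (hl1 j i mj.1.1 mj.1.2 mi.1.1 mi.1.2 h) hpq.asymm
        have := rmono i hi j hij
        apply hl1
        · simp only; omega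
        · simp only; omega
        · simp only; omega
        · simp only; omega
        · rw [Fin.mk_lt_mk]; omega
      · rw [φ1 i hi, h3]
        rcases hl2 q hq h4 with h | h
        · exact absurd (h i mi.1.1 mi.1.2) hpq.asymm
        · apply h
          · simp only; omega
          · simp only; omega
    · rcases dich q hq with ⟨j, hj, rfl⟩ | ⟨h3, h4⟩
      · have rj := rlt j hj
        have mj := (mP' j).mp hj
        rw [φ1 j hj, h1]
        rcases hl2 p hp h2 with h | h
        · apply h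
          · simp only; omega
          · simp only; omega
        · exact absurd (h j mj.1.1 mj.1.2) hpq.asymm
      · rw [h1, h3]
        exact hpq

end Pool.Agent.J6H12.Rec
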