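import Pool.Agent.J6H12.Rec.Glue

/-!
# A special point outside of the identified pair: only the support matters
-/

open Equiv Function Finset

namespace Pool.Agent.J6H12.Rec

open Pool.Agent.R795.Min (DetCS IsSing content sing isSing_comp)

variable {A B : Type} [DecidableEq A] {m : ℕ}

/-- the multiplicity of `a` in the tuple `c` -/
def mult (c : Fin m → A) (a : A) : ℕ := (univ.filter fun i => c i = a).card

theorem mult_comp (c : Fin m → A) (κ : Perm (Fin m)) (a : A) :
    mult (fun i => c (κ i)) a = mult c a := by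
  unfold mult
  rw [← card_map κ.toEmbedding]
  congr 1
  ext x
  simp only [mem_map, mem_filter, mem_univ, true_and, Equiv.coe_toEmbedding]
  constructor
  · rintro ⟨i, h, rfl⟩
    exact h
  · intro h
    exact ⟨κ.symm x, by simpa using h, by simp⟩

theorem mult_update (e : Fin m → A) {x : Fin m} {a y : A} (hx : e x = a) (hay : a ≠ y) :
    mult (update e x y) a + 1 = mult e a ∧ mult (update e x y) y = mult e y + 1 ∧
      ∀ c, c ≠ a → c ≠ y → mult (update e x y) c = mult e c := by
  refine ⟨?_, ?_, ?_⟩
  · unfold mult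
    have h1 : (univ.filter fun i => update e x y i = a) = (univ.filter fun i => e i = a).erase x := by
      ext i
      simp only [mem_filter, mem_univ, true_and, mem_erase]
      by_cases hi : i = x
      · subst hi
        simp [hay.symm]
      · simp [hi]
    rw [h1, card_erase_add_one]
    simp [hx]
  · unfold mult
    have h1 : (univ.filter fun i => update e x y i = y) =
        insert x (univ.filter fun i => e i = y) := by
      ext i
      simp only [mem_filter, mem_univ, true_and, mem_insert]
      by_cases hi : i = x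
      · subst hi
        simp
      · simp [hi]
    rw [h1, card_insert_of_notMem]
    simp [hx, hay]
  · intro c hca hcy
    unfold mult
    congr 1
    ext i
    simp only [mem_filter, mem_univ, true_and]
    by_cases hi : i = x
    · subst hi
      simp [hx, hca.symm, hcy.symm]
    · simp [hi]

theorem isSing_iff_mult (c : Fin m → A) (i : Fin m) : IsSing c i ↔ mult c (c i) = 1 := by
  rw [mult, card_eq_one]
  constructor
  · intro h
    refine ⟨i, ?_⟩
    ext j
    simp only [mem_filter, mem_univ, true_and, mem_singleton]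
    exact ⟨fun hj => h j hj, fun hj => by rw [hj]⟩
  · rintro ⟨j, hj⟩ l hl
    have h1 : i ∈ univ.filter fun l => c l = c i := by simp
    have h2 : l ∈ univ.filter fun l => c l = c i := by simpa using hl
    rw [hj, mem_singleton] at h1 h2
    rw [h1, h2]

open scoped Classical in
/-- the arrangement lemma -/
theorem arr {f : (Fin m → A) → B} (hf : DetCS f) (c : Fin m → A) {star y : A} (hne : star ≠ y)
    {S : Finset (Fin m)} {p : Fin m} (hpS : p ∉ S) (hS : S.card ≤ mult c star)
    (h2 : 2 ≤ mult c star) {k0 : Fin m} (hk0 : c k0 = y) {T : Finset (Fin m)}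
    (hTS : Disjoint T S) (hpT : p ∉ T)
    (hTc : T.card = (univ.filter fun u => IsSing c u ∧ u ≠ k0).card)
    (hord : ∀ x ∈ T, ∀ u, IsSing c u → u ≠ k0 → IsSing c k0 →
      ((p < x → k0 < u) ∧ (x < p → u < k0))) :
    ∃ κ : Perm (Fin m), (∀ z ∈ S, c (κ z) = star) ∧ c (κ p) = y ∧
      f (fun i => c (κ i)) = f c := by
  classical
  set Sg := univ.filter fun u => IsSing c u ∧ u ≠ k0 with hSg
  obtain ⟨S', hS', hS'c⟩ := exists_subset_card_eq hS
  set e1 := equivOfCardEq hS'c.symm with he1
  set e2 : T ≃o Sg := (T.orderIsoOfFin hTc).symm.trans (Sg.orderIsoOfFin rfl) with he2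
  set φ : Fin m → Fin m := fun z => if h : z ∈ S then (e1 ⟨z, h⟩ : Fin m)
    else if h : z ∈ T then (e2 ⟨z, h⟩ : Fin m) else k0 with hφ
  have φS : ∀ z (h : z ∈ S), φ z = (e1 ⟨z, h⟩ : Fin m) := by
    intro z h
    simp only [hφ, dif_pos h]
  have φT : ∀ z (h : z ∈ T), φ z = (e2 ⟨z, h⟩ : Fin m) := by
    intro z h
    have : z ∉ S := fun h' => (disjoint_left.mp hTS) h h'
    simp only [hφ, dif_neg this, dif_pos h]
  have φp : φ p = k0 := by
    simp only [hφ, dif_neg hpS, dif_neg hpT]
  have cS : ∀ z (h : z ∈ S), c (φ z) = star := by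
    intro z h
    rw [φS z h]
    exact (mem_filter.mp (hS' (e1 ⟨z, h⟩).2)).2
  have cT : ∀ z (h : z ∈ T), IsSing c (φ z) ∧ φ z ≠ k0 := by
    intro z h
    rw [φT z h]
    exact (mem_filter.mp (e2 ⟨z, h⟩).2).2
  have nsing : ∀ i, c i = star → ¬ IsSing c i := by
    intro i hi hs
    rw [isSing_iff_mult, hi] at hs
    omega
  have hinj : Set.InjOn φ (S ∪ insert p T : Finset (Fin m)) := by
    intro a ha b hb hab
    rw [mem_coe, mem_union, mem_insert] at ha hb
    rcases ha with ha | rfl | ha <;> rcases hb with hb | rfl | hb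
    · rw [φS a ha, φS b hb] at hab
      have := e1.injective (Subtype.ext hab)
      exact congrArg Subtype.val this
    · exfalso
      have := cS a ha
      rw [hab, φp, hk0] at this
      exact hne this.symm
    · exact absurd (cT b hb).1 (nsing _ (hab ▸ cS a ha))
    · exfalso
      have := cS b hb
      rw [← hab, φp, hk0] at this
      exact hne this.symm
    · rfl
    · exact absurd (hab.symm.trans φp) (cT b hb).2
    · exact absurd (cT a ha).1 (nsing _ (hab ▸ cS b hb))
    · exact absurd (hab.trans φp) (cT a ha).2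
    · rw [φT a ha, φT b hb] at hab
      have := e2.injective (Subtype.ext hab)
      exact congrArg Subtype.val this
  obtain ⟨κ, hκ⟩ := exists_perm_on hinj
  have κS : ∀ z ∈ S, κ z = φ z := fun z hz => hκ z (mem_union_left _ hz)
  have κT : ∀ z ∈ T, κ z = φ z := fun z hz => hκ z (mem_union_right _ (mem_insert_of_mem hz))
  have κp : κ p = k0 := (hκ p (mem_union_right _ (mem_insert_self _ _))).trans φp
  refine ⟨κ, fun z hz => by rw [κS z hz]; exact cS z hz, by rw [κp, hk0], ?_⟩
  apply hf.comp
  have cls : ∀ x, IsSing c (κ x) → x = p ∨ x ∈ T := by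
    intro x hx
    by_cases hxk : κ x = k0
    · left
      exact κ.injective (hxk.trans κp.symm)
    · right
      have hmem : κ x ∈ Sg := mem_filter.mpr ⟨mem_univ _, hx, hxk⟩
      set z := e2.symm ⟨κ x, hmem⟩ with hz
      have h1 : κ z = κ x := by
        rw [κT z z.2, φT z z.2]
        simp [hz]
      rw [← κ.injective h1]
      exact z.2
  intro x y' hx hy hxy
  rcases cls x hx with rfl | hxT
  · rcases cls y' hy with rfl | hyT
    · exact absurd hxy (lt_irrefl _)
    · rw [κp] at hx ⊢
      have h3 := cT y' hyT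
      rw [← κT y' hyT] at h3
      exact (hord y' hyT _ h3.1 h3.2 hx).1 hxy
  · rcases cls y' hy with rfl | hyT
    · rw [κp] at hy ⊢
      have h3 := cT x hxT
      rw [← κT x hxT] at h3
      exact (hord x hxT _ h3.1 h3.2 hy).2 hxy
    · rw [κT x hxT, κT y' hyT, φT x hxT, φT y' hyT]
      exact e2.strictMono (show (⟨x, hxT⟩ : T) < ⟨y', hyT⟩ from hxy)

/-- The data which allow to move one unit of mass. -/
def MoveData (f : (Fin m → A) → B) (ρ0 : Perm (Fin m)) (S0 : Finset (Fin m)) (p0 : Fin m) : Prop :=
  p0 ∉ S0 ∧ S0.card ≤ 5 ∧ ∀ (e : Fin m → A) (star y : A), star ≠ y → (∀ z ∈ S0, e z = star) →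
    e p0 = y → ∃ c' : Fin m → A, f c' = f (fun l => e (ρ0 l)) ∧
      mult c' star + 1 = mult e star ∧ mult c' y = mult e y + 1 ∧
      ∀ a, a ≠ star → a ≠ y → mult c' a = mult e a

theorem exists_moveData {f g : (Fin m → A) → B} {x1 x2 y1 y2 s s' : Fin m} {ρ ρ' : Perm (Fin m)}
    (hx : x1 ≠ x2) (hs1 : s ≠ x1) (hs2 : s ≠ x2) (hyx1 : y1 ≠ x1) (hyx2 : y1 ≠ x2)
    (hys : y1 ≠ s) (hy2x1 : y2 ≠ x1) (hy2x2 : y2 ≠ x2) (hy2s : y2 ≠ s)
    (H1 : ∀ b : Fin m → A, b x1 = b x2 → g b = f (fun l => update b x1 (b s) (ρ l)))
    (H2 : ∀ b : Fin m → A, b y1 = b y2 → g b = f (fun l => update b y1 (b s') (ρ' l))) :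
    ∃ ρ0 S0 p0, MoveData f ρ0 S0 p0 := by
  classical
  by_cases hss : s' = s
  · subst hss
    refine ⟨ρ, {x1, y1, y2, s'}, x2, ?_, ?_, ?_⟩
    · simp only [mem_insert, mem_singleton, not_or]
      exact ⟨hx.symm, hyx2.symm, hy2x2.symm, hs2.symm⟩
    · exact (card_le_four).trans (by norm_num)
    · intro e star y hne hS hp
      have ex1 : e x1 = star := hS _ (by simp)
      have ey1 : e y1 = star := hS _ (by simp)
      have ey2 : e y2 = star := hS _ (by simp)
      have es : e s' = star := hS _ (by simp)
      set b := update e x1 y with hb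
      have bx1 : b x1 = y := update_self _ _ _
      have bne : ∀ z, z ≠ x1 → b z = e z := fun z hz => update_of_ne hz _ _
      have h1 := H1 b (by rw [bx1, bne x2 hx.symm, hp])
      have h2 := H2 b (by rw [bne y1 hyx1, bne y2 hy2x1, ey1, ey2])
      have e1 : update b x1 (b s') = e := by
        rw [bne s' hs1, es, hb, update_idem, ← ex1, update_eq_self]
      have e2 : update b y1 (b s') = b := by
        rw [bne s' hs1, es, ← ey1, ← bne y1 hyx1, update_eq_self]
      rw [e1] at h1
      rw [e2] at h2
      refine ⟨fun l => b (ρ' l), h2.symm.trans h1, ?_⟩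
      obtain ⟨m1, m2, m3⟩ := mult_update e ex1 hne
      rw [mult_comp, mult_comp]
      exact ⟨m1, m2, fun a ha hay => by rw [mult_comp]; exact m3 a ha hay⟩
  · refine ⟨ρ', {x1, x2, y1, y2, s'}, s, ?_, ?_, ?_⟩
    · simp only [mem_insert, mem_singleton, not_or]
      exact ⟨hs1, hs2, hys.symm, hy2s.symm, fun h => hss h.symm⟩
    · exact card_le_five
    · intro e star y hne hS hp
      have ex1 : e x1 = star := hS _ (by simp)
      have ex2 : e x2 = star := hS _ (by simp)
      have ey1 : e y1 = star := hS _ (by simp)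
      have ey2 : e y2 = star := hS _ (by simp)
      have es : e s' = star := hS _ (by simp)
      have h1 := H1 e (by rw [ex1, ex2])
      have h2 := H2 e (by rw [ey1, ey2])
      have e2 : update e y1 (e s') = e := by
        rw [es, ← ey1, update_eq_self]
      rw [e2] at h2
      rw [hp] at h1
      refine ⟨fun l => update e x1 y (ρ l), h1.symm.trans h2, ?_⟩
      obtain ⟨m1, m2, m3⟩ := mult_update e ex1 hne
      rw [mult_comp, mult_comp]
      exact ⟨m1, m2, fun a ha hay => by rw [mult_comp]; exact m3 a ha hay⟩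

/-- the defect of a tuple from the canonical multiplicities -/
def defect (s1 : A) (supp : Finset A) (c : Fin m → A) : ℕ :=
  ∑ a ∈ supp.erase s1, ((mult c a - 5) + (5 - mult c a))

theorem mult_pos_iff {c : Fin m → A} {a : A} : 0 < mult c a ↔ ∃ i, c i = a := by
  rw [mult, card_pos]
  constructor
  · rintro ⟨i, hi⟩
    exact ⟨i, (mem_filter.mp hi).2⟩
  · rintro ⟨i, hi⟩
    exact ⟨i, by simpa using hi⟩

theorem sum_mult {supp : Finset A} {c : Fin m → A} (h : ∀ i, c i ∈ supp) :
    ∑ a ∈ supp, mult c a = m := by
  unfold mult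
  rw [← card_eq_sum_card_fiberwise (f := c) (s := univ) (t := supp) fun i _ => h i]
  simp

/-- one step towards the canonical multiplicities -/
theorem step {f : (Fin m → A) → B} (hf : DetCS f) {ρ0 : Perm (Fin m)} {S0 : Finset (Fin m)}
    {p0 : Fin m} (hD : MoveData f ρ0 S0 p0) {supp : Finset A} {s1 : A} (hs1 : s1 ∈ supp)
    (hm : 2 * supp.card + 20 ≤ m) (hm2 : 5 * supp.card + 1 ≤ m) (c : Fin m → A)
    (hc : ∀ a, a ∈ supp ↔ 0 < mult c a) (hdef : 0 < defect s1 supp c) :
    ∃ c' : Fin m → A, f c' = f c ∧ (∀ a, a ∈ supp ↔ 0 < mult c' a) ∧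
      defect s1 supp c' < defect s1 supp c := by
  classical
  obtain ⟨hp0, hS0, hmove⟩ := hD
  have csupp : ∀ i, c i ∈ supp := fun i => (hc _).mpr (mult_pos_iff.mpr ⟨i, rfl⟩)
  have hsum := sum_mult csupp
  -- an element of large multiplicity
  have hbig : ∃ a ∈ supp, 6 ≤ mult c a := by
    by_contra hcon
    push Not at hcon
    have : ∑ a ∈ supp, mult c a ≤ ∑ a ∈ supp, 5 := sum_le_sum fun a ha => by
      have := hcon a ha; omega
    rw [hsum, sum_const, smul_eq_mul] at this
    omega
  -- the general move
  have gen : ∀ star y : A, star ≠ y → 6 ≤ mult c star → y ∈ supp →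
      (∃ k0, c k0 = y ∧ ∃ T : Finset (Fin m), Disjoint T (S0.map ρ0.symm.toEmbedding) ∧
        ρ0.symm p0 ∉ T ∧ T.card = (univ.filter fun u => IsSing c u ∧ u ≠ k0).card ∧
        (∀ x ∈ T, ∀ u, IsSing c u → u ≠ k0 → IsSing c k0 →
          ((ρ0.symm p0 < x → k0 < u) ∧ (x < ρ0.symm p0 → u < k0)))) →
      (star = s1 ∨ y = s1 ∨ mult c y < 5) → (y ≠ s1 → mult c y < 5) →
      ∃ c' : Fin m → A, f c' = f c ∧ (∀ a, a ∈ supp ↔ 0 < mult c' a) ∧
      defect s1 supp c' < defect s1 supp c := by
    rintro star y hne hstar hy ⟨k0, hk0, T, hT1, hT2, hT3, hT4⟩ hs hy1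
    obtain ⟨κ, hκ1, hκ2, hκ3⟩ := arr hf c hne (S := S0.map ρ0.symm.toEmbedding)
      (p := ρ0.symm p0) (by simpa using hp0) (by rw [card_map]; omega) (by omega) hk0 hT1 hT2
      hT3 hT4
    obtain ⟨c', h1, h2, h3, h4⟩ := hmove (fun i => c (κ (ρ0.symm i))) star y hne
      (fun z hz => hκ1 _ (by
        rw [mem_map]; exact ⟨z, hz, rfl⟩)) hκ2
    have em : ∀ a, mult (fun i => c (κ (ρ0.symm i))) a = mult c a := by
      intro a
      rw [mult_comp (fun i => c (κ i)) ρ0.symm, mult_comp]
    rw [em] at h2 h3
    have h4' : ∀ a, a ≠ star → a ≠ y → mult c' a = mult c a := fun a h h' => by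
      rw [h4 a h h', em]
    have hf' : f c' = f c := by
      rw [h1, ← hκ3]
      simp
    refine ⟨c', hf', ?_, ?_⟩
    · intro a
      rw [hc a]
      by_cases ha : a = star
      · subst ha; omega
      · by_cases hay : a = y
        · subst hay
          have := (hc a).mp hy
          omega
        · rw [h4' a ha hay]
    · have hstarm : star ∈ supp := (hc star).mpr (by omega)
      apply sum_lt_sum
      · intro a ha
        by_cases ha1 : a = star
        · subst ha1; omega
        · by_cases hay : a = y
          · subst hay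
            have := hy1 (mem_erase.mp ha).1
            omega
          · rw [h4' a ha1 hay]
      · by_cases hys : y = s1
        · refine ⟨star, mem_erase.mpr ⟨fun h => hne (h.trans hys.symm), hstarm⟩, ?_⟩
          omega
        · refine ⟨y, mem_erase.mpr ⟨hys, hy⟩, ?_⟩
          have := hy1 hys
          omega
  by_cases hsing : ∃ i, IsSing c i
  · -- eliminate a singleton
    obtain ⟨star, hstar, hstar6⟩ := hbig
    set P := univ.filter fun u => IsSing c u with hP
    have hPne : P.Nonempty := by
      obtain ⟨i, hi⟩ := hsing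
      exact ⟨i, by simpa [hP] using hi⟩
    have hPc : P.card ≤ supp.card := by
      apply card_le_card_of_injOn c (fun u _ => csupp u)
      intro u hu v hv huv
      exact ((mem_filter.mp hv).2 u huv)
    set S := S0.map ρ0.symm.toEmbedding with hS
    have hSc : S.card ≤ 5 := by rw [hS, card_map]; exact hS0
    set p := ρ0.symm p0 with hp
    set R := (univ.filter fun i : Fin m => p < i) \ S with hR
    set Lf := (univ.filter fun i : Fin m => i < p) \ S with hLf
    have hRL : m ≤ R.card + Lf.card + 1 + 5 := by
      have : (univ : Finset (Fin m)) ⊆ (R ∪ Lf) ∪ ({p} ∪ S) := by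
        intro i _
        simp only [hR, hLf, mem_union, mem_sdiff, mem_filter, mem_univ, true_and, mem_singleton]
        rcases lt_trichotomy i p with h | h | h <;> by_cases hi : i ∈ S <;> tauto
      have := card_le_card this
      rw [card_univ, Fintype.card_fin] at this
      have h1 := card_union_le (R ∪ Lf) ({p} ∪ S)
      have h2 := card_union_le R Lf
      have h3 := card_union_le {p} S
      rw [card_singleton] at h3
      omega
    have fin : ∀ k0, IsSing c k0 → ∀ T0 : Finset (Fin m), supp.card ≤ T0.card →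
        Disjoint T0 S → p ∉ T0 → (∀ x ∈ T0, ∀ u, IsSing c u → u ≠ k0 →
          ((p < x → k0 < u) ∧ (x < p → u < k0))) →
        ∃ c' : Fin m → A, f c' = f c ∧ (∀ a, a ∈ supp ↔ 0 < mult c' a) ∧
        defect s1 supp c' < defect s1 supp c := by
      intro k0 hk0 T0 hT0 hT0S hpT0 hord
      have hle : (univ.filter fun u => IsSing c u ∧ u ≠ k0).card ≤ T0.card := by
        refine le_trans (card_le_card ?_) (hPc.trans hT0)
        intro u hu
        rw [hP, mem_filter]
        exact ⟨mem_univ _, (mem_filter.mp hu).2.1⟩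
      obtain ⟨T, hT, hTc⟩ := exists_subset_card_eq hle
      have hmk : mult c (c k0) = 1 := (isSing_iff_mult c k0).mp hk0
      have hne : star ≠ c k0 := by
        intro h
        rw [← h] at hmk
        omega
      refine gen star (c k0) hne hstar6 (csupp _) ⟨k0, rfl, T, hT0S.mono_left hT,
        fun h => hpT0 (hT h), hTc, fun x hx u hu huk _ => hord x (hT hx) u hu huk⟩
        (Or.inr (Or.inr (by omega))) (fun _ => by omega)
    by_cases hRc : supp.card ≤ R.card
    · have h0 := P.min'_mem hPne
      refine fin (P.min' hPne) (mem_filter.mp h0).2 R hRc sdiff_disjoint (by simp [hR]) ?_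
      intro x hx u hu huk
      have hpx : p < x := (mem_filter.mp (mem_sdiff.mp hx).1).2
      refine ⟨fun _ => lt_of_le_of_ne (P.min'_le u (by simpa [hP] using hu)) huk.symm, ?_⟩
      intro h
      exact absurd h hpx.asymm
    · have hLc : supp.card ≤ Lf.card := by omega
      have h0 := P.max'_mem hPne
      refine fin (P.max' hPne) (mem_filter.mp h0).2 Lf hLc sdiff_disjoint (by simp [hLf]) ?_
      intro x hx u hu huk
      have hpx : x < p := (mem_filter.mp (mem_sdiff.mp hx).1).2
      refine ⟨fun h => absurd h hpx.asymm, fun _ => ?_⟩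
      exact lt_of_le_of_ne (P.le_max' u (by simpa [hP] using hu)) huk
  · push Not at hsing
    have hT : ∀ y ∈ supp, (∃ k0, c k0 = y ∧ ∃ T : Finset (Fin m),
        Disjoint T (S0.map ρ0.symm.toEmbedding) ∧
        ρ0.symm p0 ∉ T ∧ T.card = (univ.filter fun u => IsSing c u ∧ u ≠ k0).card ∧
        (∀ x ∈ T, ∀ u, IsSing c u → u ≠ k0 → IsSing c k0 →
          ((ρ0.symm p0 < x → k0 < u) ∧ (x < ρ0.symm p0 → u < k0)))) := by
      intro y hy
      obtain ⟨k0, hk0⟩ := mult_pos_iff.mp ((hc y).mp hy)
      refine ⟨k0, hk0, ∅, by simp, by simp, ?_, by simp⟩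
      symm
      rw [card_empty, card_eq_zero, filter_eq_empty_iff]
      exact fun u _ h => hsing u h.1
    by_cases hlarge : ∃ a ∈ supp, a ≠ s1 ∧ 6 ≤ mult c a
    · obtain ⟨a, ha, has, ha6⟩ := hlarge
      exact gen a s1 has ha6 hs1 (hT s1 hs1) (Or.inr (Or.inl rfl)) (fun h => absurd rfl h)
    · push Not at hlarge
      have hs1b : 6 ≤ mult c s1 := by
        obtain ⟨a, ha, ha6⟩ := hbig
        by_cases h : a = s1
        · rwa [h] at ha6
        · have := hlarge a ha h
          omega
      have : ∃ a ∈ supp.erase s1, 0 < (mult c a - 5) + (5 - mult c a) := by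
        by_contra hcon
        push Not at hcon
        have : defect s1 supp c = 0 := sum_eq_zero fun a ha => by
          have := hcon a ha
          omega
        omega
      obtain ⟨a, ha, ha'⟩ := this
      have hne := (mem_erase.mp ha).1
      have hle := hlarge a (mem_erase.mp ha).2 hne
      exact gen s1 a hne.symm hs1b (mem_erase.mp ha).2 (hT a (mem_erase.mp ha).2)
        (Or.inl rfl) (fun _ => by omega)

/-- `f` depends only on the support. -/
theorem depends_on_support {f : (Fin m → A) → B} (hf : DetCS f) {ρ0 : Perm (Fin m)}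
    {S0 : Finset (Fin m)} {p0 : Fin m} (hD : MoveData f ρ0 S0 p0) {supp : Finset A} {s1 : A}
    (hs1 : s1 ∈ supp) (hm : 2 * supp.card + 20 ≤ m) (hm2 : 5 * supp.card + 1 ≤ m) (n : ℕ) :
    ∀ c c' : Fin m → A, (∀ a, a ∈ supp ↔ 0 < mult c a) → (∀ a, a ∈ supp ↔ 0 < mult c' a) →
      defect s1 supp c + defect s1 supp c' = n → f c = f c' := by
  induction n using Nat.strong_induction_on with
  | _ n ih =>
    intro c c' hc hc' hn
    by_cases h1 : 0 < defect s1 supp c
    · obtain ⟨d, hd1, hd2, hd3⟩ := step hf hD hs1 hm hm2 c hc h1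
      rw [← hd1]
      exact ih _ (by omega) d c' hd2 hc' rfl
    · by_cases h2 : 0 < defect s1 supp c'
      · obtain ⟨d, hd1, hd2, hd3⟩ := step hf hD hs1 hm hm2 c' hc' h2
        rw [← hd1]
        exact ih _ (by omega) c d hc hd2 rfl
      · -- both are canonical
        have key : ∀ c : Fin m → A, (∀ a, a ∈ supp ↔ 0 < mult c a) →
            ¬ 0 < defect s1 supp c → (∀ a ∈ supp, a ≠ s1 → mult c a = 5) := by
          intro c _ h a ha has
          have h0 : defect s1 supp c = 0 := by omega
          rw [defect, sum_eq_zero_iff] at h0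
          have := h0 a (mem_erase.mpr ⟨has, ha⟩)
          omega
        have kc := key c hc h1
        have kc' := key c' hc' h2
        have hs1c : ∀ c : Fin m → A, (∀ a, a ∈ supp ↔ 0 < mult c a) →
            (∀ a ∈ supp, a ≠ s1 → mult c a = 5) →
            mult c s1 + (supp.erase s1).card * 5 = m := by
          intro c hc kc
          have h3 := sum_mult (c := c) (supp := supp)
            fun i => (hc _).mpr (mult_pos_iff.mpr ⟨i, rfl⟩)
          rw [← add_sum_erase _ _ hs1] at h3
          rw [sum_congr rfl (fun a ha => kc a (mem_erase.mp ha).2 (mem_erase.mp ha).1)] at h3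
          rw [sum_const, smul_eq_mul] at h3
          exact h3
        have e1 := hs1c c hc kc
        have e2 := hs1c c' hc' kc'
        have hcard := card_erase_add_one hs1
        have hmul : ∀ a, mult c a = mult c' a := by
          intro a
          by_cases ha : a ∈ supp
          · by_cases has : a = s1
            · subst has; omega
            · rw [kc a ha has, kc' a ha has]
          · have h3 := mt (hc a).mpr ha
            have h4 := mt (hc' a).mpr ha
            omega
        have nosing : ∀ c : Fin m → A, (∀ a, a ∈ supp ↔ 0 < mult c a) →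
            (∀ a ∈ supp, a ≠ s1 → mult c a = 5) →
            mult c s1 + (supp.erase s1).card * 5 = m → ∀ i, ¬ IsSing c i := by
          intro c hc kc e i hi
          rw [isSing_iff_mult] at hi
          by_cases has : c i = s1
          · rw [has] at hi
            omega
          · have := kc (c i) ((hc _).mpr (by omega)) has
            omega
        apply hf
        · unfold content
          ext a
          rw [Multiset.count_map, Multiset.count_map]
          have := hmul a
          unfold mult at this
          rw [card_def, card_def, filter_val, filter_val] at this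
          simp only [eq_comm (a := a)]
          exact this
        · have e0 : ∀ c : Fin m → A, (∀ i, ¬ IsSing c i) → sing c = [] := by
            intro c h
            rw [Pool.Agent.R795.Min.sing_eq, List.map_eq_nil_iff, List.filter_eq_nil_iff]
            intro i _ hi
            rw [decide_eq_true_eq, Pool.Agent.R795.Min.count_eq_one] at hi
            exact h i hi
          rw [e0 c (nosing c hc kc e1), e0 c' (nosing c' hc' kc' e2)]

end Pool.Agent.J6H12.Rec
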