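import Pool.Agent.J6H12.Rec.Glue

/-!
# All identification minors given by rearrangements
-/

open Equiv Function Finset

namespace Pool.Agent.J6H12.Rec

open Pool.Agent.R795.Min (DetCS IsSing content sing isSing_comp card_sing_le)

variable {A B : Type} [DecidableEq A] {m : ℕ}

/-- the identity order -/
def idl : Fin m → ℚ := fun x => ((x : ℕ) : ℚ)

theorem idl_inj : Injective (idl : Fin m → ℚ) := by
  intro x y h
  apply Fin.ext
  exact Nat.cast_injective (R := ℚ) h

theorem idl_lt {x y : Fin m} : idl x < idl y ↔ x < y := by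
  unfold idl
  rw [Nat.cast_lt, Fin.lt_def]

theorem ev_idl {f : (Fin m → A) → B} (_hf : DetCS f) (c : Fin m → A) : ev f idl c = f c := by
  have hmono : Monotone (idl : Fin m → ℚ) := by
    intro x y h
    unfold idl
    exact_mod_cast h
  have : Tuple.sort (idl : Fin m → ℚ) = Equiv.refl (Fin m) := by
    rw [Tuple.sort_eq_refl_iff_monotone]
    exact hmono
  unfold ev
  rw [this]
  rfl

/-- the order belonging to a rearrangement -/
def ord (ρ : Perm (Fin m)) : Fin m → ℚ := fun x => idl (ρ.symm x)

theorem ord_inj (ρ : Perm (Fin m)) : Injective (ord ρ) := idl_inj.comp ρ.symm.injective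

theorem ev_ord {f : (Fin m → A) → B} (hf : DetCS f) (ρ : Perm (Fin m)) (b : Fin m → A) :
    ev f (ord ρ) b = f (fun l => b (ρ l)) := by
  rw [← ev_idl hf (fun l => b (ρ l))]
  have := ev_transfer hf ρ.symm (fun l => b (ρ l)) (ℓ := ord ρ) (ℓ' := idl) (ord_inj ρ)
    (fun x y _ _ h => h)
  rw [← this]
  congr 1
  funext i
  simp

theorem case2 [Fintype A] {f g : (Fin m → A) → B} (hf : DetCS f)
    (H : ∀ x y : Fin m, x ≠ y → ∃ ρ : Perm (Fin m), ∀ b : Fin m → A, b x = b y →
      g b = f (fun l => b (ρ l)))
    (hm : bigB (Fintype.card A + 1) + 2 ≤ m) :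
    ∃ τ : Perm (Fin m), ∀ b, g b = f (fun l => b (τ l)) := by
  classical
  set k := Fintype.card A + 1 with hk
  have hbig : 50 * (k + 1) ≤ bigB k := by unfold bigB; omega
  have hA : ∀ (b : Fin m → A) (U : Finset (Fin m)), (∀ u ∈ U, IsSing b u) → U.card ≤ k + 1 := by
    intro b U hU
    have := card_sing_le b U hU
    omega
  choose! ρ hρ using H
  have Hρ : ∀ x y, x ≠ y → ∀ b : Fin m → A, b x = b y → g b = ev f (ord (ρ x y)) b := by
    intro x y hxy b hb
    rw [ev_ord hf]
    exact hρ x y hxy b hb
  -- exchanging two positions which are not singletons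
  have swp : ∀ (z y : Fin m) (b : Fin m → A), ¬ IsSing b z → ¬ IsSing b y → ∀ ℓ : Fin m → ℚ,
      Injective ℓ → ev f ℓ (fun i => b (swap z y i)) = ev f ℓ b := by
    intro z y b hz hy ℓ hℓ
    apply ev_transfer hf (swap z y) b hℓ
    intro u v hu hv huv
    have key : ∀ u, IsSing b (swap z y u) → swap z y u = u := by
      intro u hu
      apply swap_apply_of_ne_of_ne
      · rintro rfl
        rw [swap_apply_left] at hu
        exact hy hu
      · rintro rfl
        rw [swap_apply_right] at hu
        exact hz hu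
    rw [key u hu, key v hv]
    exact huv
  have gswp : ∀ (z y : Fin m) (b : Fin m → A), ¬ IsSing b z → ¬ IsSing b y →
      g (fun i => b (swap z y i)) = g b := by
    intro z y b hz hy
    obtain ⟨u, hu, v, hv, huv, hb⟩ := exists_ne_map_eq_of_card_lt_of_maps_to
      (s := (univ.erase z).erase y) (t := (univ : Finset A)) (f := b) (by
        have h1 := pred_card_le_card_erase (s := (univ : Finset (Fin m)).erase z) (a := y)
        have h2 := pred_card_le_card_erase (s := (univ : Finset (Fin m))) (a := z)
        rw [card_univ] at *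
        rw [Fintype.card_fin] at h2
        omega) (fun _ _ => mem_univ _)
    rw [mem_erase, mem_erase] at hu hv
    have e1 : b (swap z y u) = b (swap z y v) := by
      rw [swap_apply_of_ne_of_ne hu.2.1 hu.1, swap_apply_of_ne_of_ne hv.2.1 hv.1, hb]
    rw [Hρ u v huv b hb, Hρ u v huv (fun i => b (swap z y i)) e1]
    exact swp z y b hz hy _ (ord_inj _)
  have good : ∀ x y : Fin m, x ≠ y → Good f g ((univ.erase x).erase y) (ord (ρ x y)) := by
    intro x y hxy b hb
    have hx : ¬ IsSing b x := fun h => by
      have := hb x h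
      simp at this
    have hy : ¬ IsSing b y := fun h => by
      have := hb y h
      simp at this
    by_cases hxyb : b x = b y
    · exact Hρ x y hxy b hxyb
    · have hz : ∃ z, b z = b x ∧ z ≠ x := by
        by_contra hcon
        push Not at hcon
        exact hx fun z hz => hcon z hz
      obtain ⟨z, hz1, hz2⟩ := hz
      have hzs : ¬ IsSing b z := fun h => hz2 (h x hz1.symm).symm
      rw [← gswp z y b hzs hy, ← swp z y b hzs hy _ (ord_inj _)]
      apply Hρ x y hxy
      have hzy : z ≠ y := fun h => hxyb (by rw [← h, hz1])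
      rw [swap_apply_of_ne_of_ne hz2.symm hxy, swap_apply_right, hz1]
  by_cases hG : grp f hf k = ⊤
  · refine ⟨1, fun b => ?_⟩
    obtain ⟨u, hu, v, hv, huv, hb⟩ := exists_ne_map_eq_of_card_lt_of_maps_to
      (s := (univ : Finset (Fin m))) (t := (univ : Finset A)) (f := b) (by
        rw [card_univ, card_univ, Fintype.card_fin]
        omega) (fun _ _ => mem_univ _)
    rw [Hρ u v huv b hb, cpt_of_top hf hA (by omega) hG (ord_inj _) idl_inj b
      (fun x _ => mem_univ x), ev_idl hf]
    rfl
  · have h1 : ∀ j : Fin m, ∃ ℓ : Fin m → ℚ, Injective ℓ ∧ Good f g (univ.erase j) ℓ := by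
      intro j
      apply glue hf hA (by omega) hG
      · rw [card_erase_of_mem (mem_univ _), card_univ, Fintype.card_fin]
        omega
      · intro y hy
        exact ⟨_, ord_inj _, good j y (mem_erase.mp hy).1.symm⟩
    obtain ⟨ℓ, hℓ, hg⟩ := glue hf hA (by omega) hG (Y := univ) (f := f) (g := g) (by
      rw [card_univ, Fintype.card_fin]; omega) (fun y _ => h1 y)
    exact ⟨Tuple.sort ℓ, fun b => hg b fun x _ => mem_univ x⟩

end Pool.Agent.J6H12.Rec
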