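import Pool.Agent.J6H12.Rec.Pat

/-!
# Two orders all of whose patterns lie in a proper subgroup
-/

open Equiv Function Finset

namespace Pool.Agent.J6H12.Rec

variable {k m : ℕ} {G : Subgroup (Perm (Fin (k + 1)))} {W : Finset (Fin m)} {ℓ ℓ' : Fin m → ℚ}

theorem top_of_mid (hk : 1 ≤ k) (h : Pat G W ℓ ℓ') (hℓ : Injective ℓ) (hℓ' : Injective ℓ')
    {T : Finset (Fin m)} (hT : T ⊆ W) (hinc : Inc T ℓ ℓ') {x : Fin m} (hx : x ∈ W) (hxT : x ∉ T)
    (hlt : cnt T ℓ x < cnt T ℓ' x)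
    (hmid : (2 * k ≤ cnt T ℓ x ∧ cnt T ℓ x + 2 * k ≤ T.card) ∨
      (2 * k ≤ cnt T ℓ' x ∧ cnt T ℓ' x + 2 * k ≤ T.card)) : G = ⊤ := by
  have hle := cnt_le T ℓ' x
  by_cases hbig : cnt T ℓ x + k ≤ cnt T ℓ' x
  · have h0 : cyc 0 (Fin.last k) ∈ G := by
      apply h.ins hℓ hℓ' hT hinc hx hxT (Fin.zero_le _)
      · simp
      · simp; omega
      · simp; omega
    by_cases hp : 1 ≤ cnt T ℓ x
    · have h1 : cyc (⟨1, by omega⟩ : Fin (k + 1)) (Fin.last k) ∈ G := by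
        apply h.ins hℓ hℓ' hT hinc hx hxT (Fin.le_last _)
        · exact hp
        · simp; omega
        · simp; omega
      refine top_of_rot G h0 ⟨0, by omega⟩ ?_
      have := G.mul_mem h0 (G.inv_mem h1)
      rw [cyc_inv, cyc_mul] at this
      exact this
    · have h1 : cyc 0 (⟨k - 1, by omega⟩ : Fin (k + 1)) ∈ G := by
        apply h.ins hℓ hℓ' hT hinc hx hxT (Fin.zero_le _)
        · simp
        · simp; omega
        · simp; omega
      refine top_of_rot G h0 ⟨k - 1, by omega⟩ ?_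
      have := G.mul_mem (G.inv_mem h1) h0
      rw [cyc_inv, cyc_mul] at this
      have e1 : (⟨k - 1, by omega⟩ : Fin k).succ = Fin.last k := by
        apply Fin.ext
        show k - 1 + 1 = k
        omega
      rw [e1]
      exact this
  · apply top_of_adj
    intro i
    have hi := i.2
    apply h.ins hℓ hℓ' hT hinc hx hxT (Fin.castSucc_lt_succ).le
    · simp; omega
    · simp; omega
    · simp; omega

theorem top_of_mid' (hk : 1 ≤ k) (h : Pat G W ℓ ℓ') (hℓ : Injective ℓ) (hℓ' : Injective ℓ')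
    {T : Finset (Fin m)} (hT : T ⊆ W) (hinc : Inc T ℓ ℓ') {x : Fin m} (hx : x ∈ W) (hxT : x ∉ T)
    (hne : cnt T ℓ x ≠ cnt T ℓ' x)
    (hmid : (2 * k ≤ cnt T ℓ x ∧ cnt T ℓ x + 2 * k ≤ T.card) ∨
      (2 * k ≤ cnt T ℓ' x ∧ cnt T ℓ' x + 2 * k ≤ T.card)) : G = ⊤ := by
  rcases lt_or_gt_of_ne hne with h1 | h1
  · exact top_of_mid hk h hℓ hℓ' hT hinc hx hxT h1 hmid
  · exact top_of_mid hk h.symm hℓ' hℓ hT (hinc.symm hℓ) hx hxT h1 hmid.symm

theorem rot_of_gap (h : Pat G W ℓ ℓ') (hℓ : Injective ℓ) (hℓ' : Injective ℓ')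
    {T : Finset (Fin m)} (hT : T ⊆ W) (hinc : Inc T ℓ ℓ') {x : Fin m} (hx : x ∈ W) (hxT : x ∉ T)
    (hlt : cnt T ℓ x + k ≤ cnt T ℓ' x) : cyc 0 (Fin.last k) ∈ G := by
  have hle := cnt_le T ℓ' x
  apply h.ins hℓ hℓ' hT hinc hx hxT (Fin.zero_le _)
  · simp
  · simp; omega
  · simp; omega

theorem rot_of_gap' (h : Pat G W ℓ ℓ') (hℓ : Injective ℓ) (hℓ' : Injective ℓ')
    {T : Finset (Fin m)} (hT : T ⊆ W) (hinc : Inc T ℓ ℓ') {x : Fin m} (hx : x ∈ W) (hxT : x ∉ T)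
    (hlt : cnt T ℓ' x + k ≤ cnt T ℓ x) : cyc 0 (Fin.last k) ∈ G :=
  rot_of_gap h.symm hℓ' hℓ hT (hinc.symm hℓ) hx hxT hlt

/-- the reversed order -/
def neg (ℓ : Fin m → ℚ) : Fin m → ℚ := fun x => - ℓ x

theorem neg_inj (hℓ : Injective ℓ) : Injective (neg ℓ) := fun _ _ h => hℓ (neg_injective h)

theorem neg_neg' : neg (neg ℓ) = ℓ := by funext x; simp [neg]

theorem neg_lt {x y : Fin m} : neg ℓ x < neg ℓ y ↔ ℓ y < ℓ x := by simp [neg]

theorem es (hℓ : Injective ℓ) (hℓ' : Injective ℓ') {K : ℕ} (S : Finset (Fin m))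
    (hS : K * K < S.card) :
    ∃ T ⊆ S, K < T.card ∧ (Inc T ℓ ℓ' ∨ Inc T ℓ (neg ℓ')) := by
  classical
  obtain ⟨e, emem, emono, esurj, _⟩ := exists_enum S hℓ rfl
  have einj : Injective e := emono.injective.of_comp
  have hi : Injective (ℓ' ∘ e) := hℓ'.comp einj
  rcases Pool.Agent.R795.Min.erdos_szekeres (α := Fin S.card) (r := K) (f := ℓ' ∘ e)
    (by rw [Fintype.card_fin]; exact hS) hi with ⟨t, ht, hm⟩ | ⟨t, ht, hm⟩
  · refine ⟨t.image e, ?_, by rwa [card_image_of_injective _ einj], Or.inl ?_⟩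
    · intro x hx
      obtain ⟨i, _, rfl⟩ := mem_image.mp hx
      exact emem i
    · intro x hx y hy hxy
      obtain ⟨i, hi, rfl⟩ := mem_image.mp hx
      obtain ⟨j, hj, rfl⟩ := mem_image.mp hy
      exact hm hi hj (emono.lt_iff_lt.mp hxy)
  · refine ⟨t.image e, ?_, by rwa [card_image_of_injective _ einj], Or.inr ?_⟩
    · intro x hx
      obtain ⟨i, _, rfl⟩ := mem_image.mp hx
      exact emem i
    · intro x hx y hy hxy
      obtain ⟨i, hi, rfl⟩ := mem_image.mp hx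
      obtain ⟨j, hj, rfl⟩ := mem_image.mp hy
      rw [neg_lt]
      exact hm hi hj (emono.lt_iff_lt.mp hxy)

theorem rev_mem (h : Pat G W ℓ ℓ') (hℓ : Injective ℓ) {D : Finset (Fin m)} (hD : D ⊆ W)
    (hinc : Inc D ℓ (neg ℓ')) (hc : k + 1 ≤ D.card) : Fin.revPerm ∈ G := by
  obtain ⟨D', hD', hc'⟩ := exists_subset_card_eq hc
  obtain ⟨e, emem, emono, _, _⟩ := exists_enum D' hℓ hc'
  refine h e (fun i => hD (hD' (emem i))) emono _ ?_
  intro i j hij
  have : e (Fin.revPerm j) ∈ D := hD' (emem _)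
  have h2 := hinc _ this _ (hD' (emem (Fin.revPerm i))) (emono (by simpa using hij))
  rw [neg_lt] at h2
  exact h2

theorem Pat.neg_right (h : Pat G W ℓ ℓ') (hr : Fin.revPerm ∈ G) : Pat G W ℓ (neg ℓ') := by
  intro e he hl π hπ
  have h1 := h e he hl (π * Fin.revPerm) (by
    intro i j hij
    have := hπ (show Fin.revPerm j < Fin.revPerm i by simpa using hij)
    simp only [Function.comp] at this
    rw [neg_lt] at this
    exact this)
  exact (G.mul_mem_cancel_right hr).mp h1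

theorem Inc.neg (h : Inc W ℓ ℓ') : Inc W (neg ℓ) (neg ℓ') := by
  intro s hs t ht hst
  rw [neg_lt] at hst ⊢
  exact h t ht s hs hst

theorem rot_of_dec (h : Pat G W ℓ ℓ') (hℓ : Injective ℓ) (hℓ' : Injective ℓ')
    {D : Finset (Fin m)} (hD : D ⊆ W) (hinc : Inc D ℓ (Rec.neg ℓ')) (hc : k + 1 ≤ D.card)
    {u : Fin m} (hu : u ∈ W) (h1 : ∀ d ∈ D, ℓ d < ℓ u) (h2 : ∀ d ∈ D, ℓ' d < ℓ' u) :
    cyc 0 (Fin.last k) ∈ G := by
  have h' := h.neg_right (rev_mem h hℓ hD hinc hc)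
  have huD : u ∉ D := fun hu => lt_irrefl _ (h1 u hu)
  apply rot_of_gap' h' hℓ (neg_inj hℓ') hD hinc hu huD
  have e1 : cnt D ℓ u = D.card := by
    rw [cnt, filter_true_of_mem h1]
  have e2 : cnt D (Rec.neg ℓ') u = 0 := by
    rw [cnt, card_eq_zero, filter_eq_empty_iff]
    intro d hd
    rw [neg_lt]
    exact (h2 d hd).asymm
  omega

theorem cnt_inc {T : Finset (Fin m)} (hinc : Inc T ℓ ℓ') (hℓ : Injective ℓ) {x : Fin m}
    (hx : x ∈ T) : cnt T ℓ x = cnt T ℓ' x := by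
  unfold cnt
  congr 1
  apply filter_congr
  intro t ht
  exact ⟨fun h => hinc t ht x hx h, fun h => hinc.symm hℓ t ht x hx h⟩

theorem inc_insert {T : Finset (Fin m)} (hinc : Inc T ℓ ℓ') (hℓ : Injective ℓ)
    (hℓ' : Injective ℓ') {x : Fin m} (hx : x ∉ T) (hc : cnt T ℓ x = cnt T ℓ' x) :
    Inc (insert x T) ℓ ℓ' := by
  classical
  have key : ∀ (a b : Fin m → ℚ), Injective a → Injective b → Inc T a b →
      cnt T a x = cnt T b x → ∀ s ∈ T, a s < a x → b s < b x := by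
    intro a b ha hb hinc hc s hs hsx
    by_contra hn
    have hne : x ≠ s := fun h => hx (h ▸ hs)
    have hlt : b x < b s := lt_of_le_of_ne (not_lt.mp hn) (fun h => hne (hb h))
    have : cnt T b x < cnt T a x := by
      apply card_lt_card
      rw [Finset.ssubset_iff_of_subset]
      · exact ⟨s, by simp [hs, hsx], by simp [hlt.le]⟩
      · intro t
        simp only [mem_filter]
        rintro ⟨h1, h2⟩
        exact ⟨h1, (hinc.symm ha t h1 s hs (h2.trans hlt)).trans hsx⟩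
    omega
  intro s hs t ht hst
  rw [mem_insert] at hs ht
  rcases hs with rfl | hs
  · rcases ht with rfl | ht
    · exact absurd hst (lt_irrefl _)
    · by_contra hn
      have hlt : ℓ' t < ℓ' s := lt_of_le_of_ne (not_lt.mp hn) (fun h => by
        have := hℓ' h
        rw [this] at hst
        exact lt_irrefl _ hst)
      have := key ℓ' ℓ hℓ' hℓ (hinc.symm hℓ) hc.symm t ht hlt
      exact hst.asymm this
  · rcases ht with rfl | ht
    · exact key ℓ ℓ' hℓ hℓ' hinc hc s hs hst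
    · exact hinc s hs t ht hst

end Pool.Agent.J6H12.Rec
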