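import Pool.Agent.J6H12.Rec.Pivot
import Pool.Agent.R795.Min.Main

/-!
# Evaluation of a function determined by content and singletons along an order
-/

open Equiv Function Finset

namespace Pool.Agent.J6H12.Rec

open Pool.Agent.R795.Min (DetCS IsSing content sing content_comp sing_comp isSing_comp)

variable {A B : Type} [DecidableEq A] {k m : ℕ}

/-- the value of `f` at the tuple `b` rearranged in the order `ℓ` -/
def ev (f : (Fin m → A) → B) (ℓ : Fin m → ℚ) (b : Fin m → A) : B :=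
  f (fun i => b (Tuple.sort ℓ i))

theorem ev_transfer {f : (Fin m → A) → B} (hf : DetCS f) (Φ : Perm (Fin m)) (b : Fin m → A)
    {ℓ ℓ' : Fin m → ℚ} (hℓ : Injective ℓ)
    (h : ∀ x y, IsSing b (Φ x) → IsSing b (Φ y) → ℓ x < ℓ y → ℓ' (Φ x) < ℓ' (Φ y)) :
    ev f ℓ (fun i => b (Φ i)) = ev f ℓ' b := by
  set ρ : Perm (Fin m) := (Tuple.sort ℓ).trans (Φ.trans (Tuple.sort ℓ').symm) with hρ
  have h1 := hf.comp (fun i => b (Tuple.sort ℓ' i)) ρ (by
    intro x y hx hy hxy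
    rw [isSing_comp b (Tuple.sort ℓ')] at hx hy
    have ex : Tuple.sort ℓ' (ρ x) = Φ (Tuple.sort ℓ x) := by simp [hρ]
    have ey : Tuple.sort ℓ' (ρ y) = Φ (Tuple.sort ℓ y) := by simp [hρ]
    rw [ex] at hx
    rw [ey] at hy
    have hlt : ℓ (Tuple.sort ℓ x) < ℓ (Tuple.sort ℓ y) := by
      refine lt_of_le_of_ne (Tuple.monotone_sort ℓ hxy.le) (fun h' => ?_)
      exact hxy.ne ((Tuple.sort ℓ).injective (hℓ h'))
    have h2 := h _ _ hx hy hlt
    rw [← ex, ← ey] at h2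
    by_contra hn
    exact absurd h2 (not_lt.mpr (Tuple.monotone_sort ℓ' (not_lt.mp hn))))
  unfold ev
  rw [← h1]
  congr 1
  funext i
  simp [hρ]

/-- the orders `ℓ` and `ℓ'` give the same values for tuples with all singletons in `Z` -/
def Cpt (f : (Fin m → A) → B) (Z : Finset (Fin m)) (ℓ ℓ' : Fin m → ℚ) : Prop :=
  ∀ b, (∀ x, IsSing b x → x ∈ Z) → ev f ℓ b = ev f ℓ' b

/-- the order `ℓ` is good for `g` on `Z` -/
def Good (f g : (Fin m → A) → B) (Z : Finset (Fin m)) (ℓ : Fin m → ℚ) : Prop :=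
  ∀ b, (∀ x, IsSing b x → x ∈ Z) → g b = ev f ℓ b

omit [DecidableEq A] in
theorem Cpt.mono {f : (Fin m → A) → B} {Z V : Finset (Fin m)} {ℓ ℓ' : Fin m → ℚ}
    (h : Cpt f Z ℓ ℓ') (hV : V ⊆ Z) : Cpt f V ℓ ℓ' := fun b hb => h b fun x hx => hV (hb x hx)

omit [DecidableEq A] in
theorem Good.mono {f g : (Fin m → A) → B} {Z V : Finset (Fin m)} {ℓ : Fin m → ℚ}
    (h : Good f g Z ℓ) (hV : V ⊆ Z) : Good f g V ℓ := fun b hb => h b fun x hx => hV (hb x hx)

omit [DecidableEq A] in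
theorem Good.cpt {f g : (Fin m → A) → B} {Z : Finset (Fin m)} {ℓ ℓ' : Fin m → ℚ}
    (h : Good f g Z ℓ) (h' : Good f g Z ℓ') : Cpt f Z ℓ ℓ' :=
  fun b hb => (h b hb).symm.trans (h' b hb)

omit [DecidableEq A] in
theorem Good.of_cpt {f g : (Fin m → A) → B} {Z : Finset (Fin m)} {ℓ ℓ' : Fin m → ℚ}
    (h : Good f g Z ℓ) (h' : Cpt f Z ℓ ℓ') : Good f g Z ℓ' :=
  fun b hb => (h b hb).trans (h' b hb)

theorem cpt_of_inc {f : (Fin m → A) → B} (hf : DetCS f) {Z : Finset (Fin m)} {ℓ ℓ' : Fin m → ℚ}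
    (hℓ : Injective ℓ) (h : Inc Z ℓ ℓ') : Cpt f Z ℓ ℓ' := by
  intro b hb
  exact ev_transfer hf 1 b hℓ fun x y hx hy hxy => h x (hb x hx) y (hb y hy) hxy

theorem exists_ord (e : Fin (k + 1) → Fin m) (he : Injective e) :
    ∃ ℓ : Fin m → ℚ, Injective ℓ ∧ StrictMono (ℓ ∘ e) := by
  classical
  set ℓ : Fin m → ℕ := fun x => if h : ∃ i, e i = x then (h.choose : ℕ) else k + 1 + x with hℓ
  have h1 : ∀ i, ℓ (e i) = i := by
    intro i
    have h : ∃ j, e j = e i := ⟨i, rfl⟩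
    simp only [hℓ, dif_pos h]
    rw [he h.choose_spec]
  have hinj : Injective ℓ := by
    intro x y hxy
    by_cases hx : ∃ i, e i = x
    · obtain ⟨i, rfl⟩ := hx
      by_cases hy : ∃ i, e i = y
      · obtain ⟨j, rfl⟩ := hy
        rw [h1, h1] at hxy
        rw [Fin.ext hxy]
      · rw [h1] at hxy
        simp only [hℓ, dif_neg hy] at hxy
        have := i.2
        omega
    · by_cases hy : ∃ i, e i = y
      · obtain ⟨j, rfl⟩ := hy
        rw [h1] at hxy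
        simp only [hℓ, dif_neg hx] at hxy
        have := j.2
        omega
      · simp only [hℓ, dif_neg hx, dif_neg hy] at hxy
        apply Fin.ext
        omega
  refine ⟨fun x => (ℓ x : ℚ), fun x y h => hinj (Nat.cast_injective (R := ℚ) h),
    fun i j hij => ?_⟩
  simp only [Function.comp, h1]
  exact_mod_cast hij

theorem exists_perm_comp {r : ℕ} (e1 e : Fin r → Fin m) (h1 : Injective e1) (h : Injective e) :
    ∃ Φ : Perm (Fin m), ∀ i, Φ (e1 i) = e i := by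
  classical
  set θ := (Equiv.ofInjective e1 h1).symm.trans (Equiv.ofInjective e h) with hθ
  have key : ∀ i, θ ⟨e1 i, ⟨i, rfl⟩⟩ = ⟨e i, ⟨i, rfl⟩⟩ := by
    intro i
    have : (Equiv.ofInjective e1 h1).symm ⟨e1 i, ⟨i, rfl⟩⟩ = i := by
      rw [Equiv.symm_apply_eq]
      rfl
    rw [hθ, Equiv.trans_apply, this]
    rfl
  refine ⟨Equiv.extendSubtype (p := fun x => x ∈ Set.range e1) (q := fun x => x ∈ Set.range e) θ,
    fun i => ?_⟩
  have h2 := Equiv.extendSubtype_apply_of_mem (p := fun x => x ∈ Set.range e1)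
    (q := fun x => x ∈ Set.range e) θ (e1 i) ⟨i, rfl⟩
  rw [h2, key]

theorem transfer_all {f : (Fin m → A) → B} (hf : DetCS f) {e e1 : Fin (k + 1) → Fin m}
    {π : Perm (Fin (k + 1))} {ℓ ℓ' ℓ1 ℓ1' : Fin m → ℚ}
    (h1 : StrictMono (ℓ ∘ e)) (h2 : StrictMono (ℓ' ∘ e ∘ π))
    (hc : Cpt f (univ.image e) ℓ ℓ')
    (hℓ1 : Injective ℓ1) (hℓ1' : Injective ℓ1')
    (h3 : StrictMono (ℓ1 ∘ e1)) (h4 : StrictMono (ℓ1' ∘ e1 ∘ π)) :
    Cpt f (univ.image e1) ℓ1 ℓ1' := by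
  intro b hb
  have ie : Injective e := h1.injective.of_comp
  have ie1 : Injective e1 := h3.injective.of_comp
  obtain ⟨Φ, hΦ⟩ := exists_perm_comp e1 e ie1 ie
  set b' : Fin m → A := fun i => b (Φ.symm i) with hb'
  have hbb : b = fun i => b' (Φ i) := by
    funext i; simp [hb']
  have hs : ∀ x, IsSing b' (Φ x) → ∃ i, x = e1 i := by
    intro x hx
    rw [← isSing_comp b' Φ, ← hbb] at hx
    obtain ⟨i, _, hi⟩ := mem_image.mp (hb x hx)
    exact ⟨i, hi.symm⟩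
  have t1 : ev f ℓ1 b = ev f ℓ b' := by
    conv_lhs => rw [hbb]
    apply ev_transfer hf Φ b' hℓ1
    intro x y hx hy hxy
    obtain ⟨i, rfl⟩ := hs x hx
    obtain ⟨j, rfl⟩ := hs y hy
    rw [hΦ, hΦ]
    exact h1 (h3.lt_iff_lt.mp hxy)
  have t2 : ev f ℓ1' b = ev f ℓ' b' := by
    conv_lhs => rw [hbb]
    apply ev_transfer hf Φ b' hℓ1'
    intro x y hx hy hxy
    obtain ⟨i, rfl⟩ := hs x hx
    obtain ⟨j, rfl⟩ := hs y hy
    rw [hΦ, hΦ]
    obtain ⟨i, rfl⟩ := π.surjective i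
    obtain ⟨j, rfl⟩ := π.surjective j
    exact h2 (h4.lt_iff_lt.mp hxy)
  rw [t1, t2]
  apply hc
  intro z hz
  obtain ⟨x, rfl⟩ := Φ.surjective z
  obtain ⟨i, rfl⟩ := hs x hz
  rw [hΦ]
  exact mem_image_of_mem _ (mem_univ _)

/-- The group of the permutations of `k + 1` points which do not change the value of `f`. -/
def grp (f : (Fin m → A) → B) (hf : DetCS f) (k : ℕ) : Subgroup (Perm (Fin (k + 1))) where
  carrier := {π | ∀ (e : Fin (k + 1) → Fin m) (ℓ ℓ' : Fin m → ℚ), Injective ℓ → Injective ℓ' →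
    StrictMono (ℓ ∘ e) → StrictMono (ℓ' ∘ e ∘ π) → Cpt f (univ.image e) ℓ ℓ'}
  one_mem' := by
    intro e ℓ ℓ' hℓ hℓ' h1 h2
    apply cpt_of_inc hf hℓ
    intro s hs t ht hst
    obtain ⟨i, _, rfl⟩ := mem_image.mp hs
    obtain ⟨j, _, rfl⟩ := mem_image.mp ht
    exact h2 (h1.lt_iff_lt.mp hst)
  mul_mem' := by
    intro π1 π2 hπ1 hπ2 e ℓ ℓ' hℓ hℓ' h1 h2
    have ie : Injective e := h1.injective.of_comp
    obtain ⟨ℓ2, hℓ2, h3⟩ := exists_ord (e ∘ π1) (ie.comp π1.injective)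
    have c1 : Cpt f (univ.image e) ℓ ℓ2 := hπ1 e ℓ ℓ2 hℓ hℓ2 h1 h3
    have c2 : Cpt f (univ.image (e ∘ π1)) ℓ2 ℓ' := hπ2 (e ∘ π1) ℓ2 ℓ' hℓ2 hℓ' h3 h2
    have : univ.image (e ∘ π1) = univ.image e := by
      rw [← image_image, image_univ_of_surjective π1.surjective]
    rw [this] at c2
    exact fun b hb => (c1 b hb).trans (c2 b hb)
  inv_mem' := by
    intro π hπ e ℓ ℓ' hℓ hℓ' h1 h2
    have e1 : ℓ ∘ (e ∘ (π⁻¹ : Perm _)) ∘ π = ℓ ∘ e := by
      funext i; simp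
    have := hπ (e ∘ (π⁻¹ : Perm _)) ℓ' ℓ hℓ' hℓ h2 (by rw [e1]; exact h1)
    have e2 : univ.image (e ∘ (π⁻¹ : Perm _)) = univ.image e := by
      rw [← image_image, image_univ_of_surjective (π⁻¹ : Perm _).surjective]
    rw [e2] at this
    exact fun b hb => (this b hb).symm

theorem mem_grp {f : (Fin m → A) → B} {hf : DetCS f} {π : Perm (Fin (k + 1))} :
    π ∈ grp f hf k ↔ ∀ (e : Fin (k + 1) → Fin m) (ℓ ℓ' : Fin m → ℚ), Injective ℓ →
      Injective ℓ' → StrictMono (ℓ ∘ e) → StrictMono (ℓ' ∘ e ∘ π) →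
      Cpt f (univ.image e) ℓ ℓ' := Iff.rfl

theorem pat_of_cpt {f : (Fin m → A) → B} (hf : DetCS f) {Z : Finset (Fin m)} {ℓ ℓ' : Fin m → ℚ}
    (hc : Cpt f Z ℓ ℓ') :
    Pat (grp f hf k) Z ℓ ℓ' := by
  intro e he h1 π h2
  rw [mem_grp]
  intro e1 ℓ1 ℓ1' hℓ1 hℓ1' h3 h4
  refine transfer_all hf h1 h2 (hc.mono ?_) hℓ1 hℓ1' h3 h4
  intro x hx
  obtain ⟨i, _, rfl⟩ := mem_image.mp hx
  exact he i

theorem cpt_of_pat {f : (Fin m → A) → B} (hf : DetCS f)
    (hA : ∀ (b : Fin m → A) (U : Finset (Fin m)), (∀ u ∈ U, IsSing b u) → U.card ≤ k + 1)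
    {Z : Finset (Fin m)} (hZ : k + 1 ≤ Z.card) {ℓ ℓ' : Fin m → ℚ}
    (hℓ : Injective ℓ) (hℓ' : Injective ℓ')
    (h : ∀ e : Fin (k + 1) → Fin m, (∀ i, e i ∈ Z) → StrictMono (ℓ ∘ e) →
      ∃ π ∈ grp f hf k, StrictMono (ℓ' ∘ e ∘ π)) : Cpt f Z ℓ ℓ' := by
  classical
  intro b hb
  set P : Finset (Fin m) := univ.filter fun x => IsSing b x with hP
  have hPc : P.card ≤ k + 1 := hA b P fun u hu => (mem_filter.mp hu).2
  have hPZ : P ⊆ Z := fun x hx => hb x (mem_filter.mp hx).2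
  obtain ⟨P', hPP', hP'Z, hP'c⟩ := exists_subsuperset_card_eq hPZ hPc hZ
  obtain ⟨e, emem, emono, esurj, _⟩ := exists_enum P' hℓ hP'c
  obtain ⟨π, hπ, h2⟩ := h e (fun i => hP'Z (emem i)) emono
  refine (mem_grp.mp hπ) e ℓ ℓ' hℓ hℓ' emono h2 b fun x hx => ?_
  obtain ⟨i, rfl⟩ := esurj x (hPP' (mem_filter.mpr ⟨mem_univ _, hx⟩))
  exact mem_image_of_mem _ (mem_univ _)

theorem cpt_of_top {f : (Fin m → A) → B} (hf : DetCS f)
    (hA : ∀ (b : Fin m → A) (U : Finset (Fin m)), (∀ u ∈ U, IsSing b u) → U.card ≤ k + 1)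
    (hm : k + 1 ≤ m) (hG : grp f hf k = ⊤) {ℓ ℓ' : Fin m → ℚ}
    (hℓ : Injective ℓ) (hℓ' : Injective ℓ') : Cpt f univ ℓ ℓ' := by
  apply cpt_of_pat hf hA (by simpa using hm) hℓ hℓ'
  intro e _ h1
  have ie : Injective e := h1.injective.of_comp
  refine ⟨Tuple.sort (ℓ' ∘ e), by rw [hG]; trivial, ?_⟩
  exact (Tuple.monotone_sort (ℓ' ∘ e)).strictMono_of_injective
    ((hℓ'.comp ie).comp (Tuple.sort (ℓ' ∘ e)).injective)

theorem cpt_neg {f : (Fin m → A) → B} (hf : DetCS f)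
    (hA : ∀ (b : Fin m → A) (U : Finset (Fin m)), (∀ u ∈ U, IsSing b u) → U.card ≤ k + 1)
    {Z : Finset (Fin m)} (hZ : k + 1 ≤ Z.card) (hr : Fin.revPerm ∈ grp f hf k)
    {ℓ : Fin m → ℚ} (hℓ : Injective ℓ) : Cpt f Z ℓ (neg ℓ) := by
  apply cpt_of_pat hf hA hZ hℓ (neg_inj hℓ)
  intro e _ h1
  refine ⟨_, hr, fun i j hij => ?_⟩
  simp only [Function.comp]
  rw [neg_lt]
  exact h1 (by simpa using hij)

theorem cpt_rot {f : (Fin m → A) → B} (hf : DetCS f)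
    (hA : ∀ (b : Fin m → A) (U : Finset (Fin m)), (∀ u ∈ U, IsSing b u) → U.card ≤ k + 1)
    {Z : Finset (Fin m)} (hZ : k + 1 ≤ Z.card) (hr : cyc 0 (Fin.last k) ∈ grp f hf k)
    {ℓ : Fin m → ℚ} (hℓ : Injective ℓ) {z : Fin m} {v : ℚ} (hz : ∀ w ∈ Z, ℓ z ≤ ℓ w)
    (hv : ∀ w ∈ Z, w ≠ z → ℓ w < v) (hi : Injective (Function.update ℓ z v)) :
    Cpt f Z ℓ (Function.update ℓ z v) := by
  apply cpt_of_pat hf hA hZ hℓ hi
  intro e he h1
  have ie : Injective e := h1.injective.of_comp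
  by_cases h : ∃ i, e i = z
  · obtain ⟨i, hi'⟩ := h
    have h0 : e 0 = z := by
      by_contra hne
      have h2 : ℓ z ≤ ℓ (e 0) := hz _ (he 0)
      have h3 : ℓ (e 0) ≤ ℓ (e i) := h1.monotone (Fin.zero_le i)
      rw [hi'] at h3
      exact hne (hℓ (le_antisymm h3 h2))
    refine ⟨_, hr, ?_⟩
    have e1 : e = ((0 : Fin (k + 1)).insertNth (e 0) (fun i => e i.succ) :
        Fin (k + 1) → Fin m) := by
      funext x
      rcases Fin.eq_self_or_eq_succAbove 0 x with rfl | ⟨i, rfl⟩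
      · simp
      · simp
    have e2 : e ∘ cyc 0 (Fin.last k) =
        ((Fin.last k).insertNth (e 0) (fun i => e i.succ) : Fin (k + 1) → Fin m) := by
      conv_lhs => rw [e1]
      rw [insertNth_comp_cyc]
    rw [e2]
    have e3 : update ℓ z v ∘ ((Fin.last k).insertNth (e 0) (fun i => e i.succ) :
        Fin (k + 1) → Fin m) =
        ((Fin.last k).insertNth v (fun i => ℓ (e i.succ)) : Fin (k + 1) → ℚ) := by
      funext x
      rcases Fin.eq_self_or_eq_succAbove (Fin.last k) x with rfl | ⟨i, rfl⟩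
      · simp [h0]
      · have : e i.succ ≠ z := by
          rw [← h0]
          exact fun h' => Fin.succ_ne_zero i (ie h')
        simp [this]
    rw [e3]
    apply strictMono_insertNth
    · intro i j hij
      exact h1 (Fin.succ_lt_succ_iff.mpr hij)
    · intro i _
      apply hv _ (he _)
      rw [← h0]
      exact fun h' => Fin.succ_ne_zero i (ie h')
    · intro i hi
      exact absurd hi (not_le.mpr (Fin.castSucc_lt_last i))
  · refine ⟨1, one_mem _, ?_⟩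
    have : update ℓ z v ∘ e = ℓ ∘ e := by
      funext i
      have : e i ≠ z := fun h' => h ⟨i, h'⟩
      simp [this]
    intro i j hij
    have := congrFun this
    simp only [Function.comp] at this
    simp only [Function.comp, Perm.coe_one, id, this]
    exact h1 hij

end Pool.Agent.J6H12.Rec
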