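import Pool.Agent.J6H12.Rec.Ball

/-!
# Gluing of good orders
-/

open Equiv Function Finset

namespace Pool.Agent.J6H12.Rec

open Pool.Agent.R795.Min (DetCS IsSing content sing isSing_comp)

variable {A B : Type} [DecidableEq A] {k m : ℕ}

theorem fin_card {t c d : ℕ} (hd : d ≤ t) :
    (univ.filter fun i : Fin t => c ≤ (i : ℕ) ∧ (i : ℕ) < d).card = d - c := by
  rw [← Nat.card_Ico c d, ← card_map Fin.valEmbedding]
  congr 1
  ext x
  simp only [mem_map, mem_filter, mem_univ, true_and, Fin.valEmbedding_apply, mem_Ico]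
  constructor
  · rintro ⟨i, h, rfl⟩
    exact h
  · intro h
    exact ⟨⟨x, by omega⟩, h, rfl⟩

theorem mid_const {f g : (Fin m → A) → B} (hf : DetCS f) (hk : 1 ≤ k) (hG : grp f hf k ≠ ⊤)
    {Y : Finset (Fin m)} {x0 : Fin m} (hx0 : x0 ∈ Y) {t : ℕ} {e : Fin t → Fin m}
    (einj : Injective e) (emem : ∀ i, e i ∈ Y.erase x0) {ℓ0 : Fin m → ℚ} (h0 : Injective ℓ0)
    (emono : StrictMono (ℓ0 ∘ e)) {y1 y2 : Fin m} (hy1 : x0 ≠ y1) (hy2 : x0 ≠ y2)
    {l1 l2 : Fin m → ℚ} (i1 : Injective l1) (i2 : Injective l2)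
    (g1 : Good f g (Y.erase y1) l1) (g2 : Good f g (Y.erase y2) l2)
    (p1 : ∀ i : Fin t, endB k + 2 ≤ i → i + endB k + 2 < t → e i ≠ y1 →
      ∀ w ∈ Y.erase x0, w ≠ y1 → (ℓ0 w < ℓ0 (e i) ↔ l1 w < l1 (e i)))
    (p2 : ∀ i : Fin t, endB k + 2 ≤ i → i + endB k + 2 < t → e i ≠ y2 →
      ∀ w ∈ Y.erase x0, w ≠ y2 → (ℓ0 w < ℓ0 (e i) ↔ l2 w < l2 (e i)))
    {i j : Fin t} (hi : endB k + 2 + 2 * k + 3 ≤ i) (hij : i < j)
    (hj : j + 2 * k + 3 + endB k + 2 < t) (ei1 : e i ≠ y1) (ei2 : e i ≠ y2) (ej1 : e j ≠ y1)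
    (ej2 : e j ≠ y2) (hx : l1 (e i) < l1 x0) (hx' : l1 x0 < l1 (e j)) :
    ∀ i' : Fin t, endB k + 2 ≤ i' → i' + endB k + 2 < t → e i' ≠ y1 → e i' ≠ y2 →
      (l1 (e i') < l1 x0 ↔ l2 (e i') < l2 x0) := by
  classical
  rw [Fin.lt_def] at hij
  set T := (univ.filter fun i : Fin t => endB k + 2 ≤ i ∧ i + endB k + 2 < t ∧ e i ≠ y1 ∧
    e i ≠ y2).image e with hT
  have mT : ∀ i : Fin t, e i ∈ T ↔ (endB k + 2 ≤ i ∧ i + endB k + 2 < t ∧ e i ≠ y1 ∧
    e i ≠ y2) := by
    intro i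
    rw [hT, mem_image]
    constructor
    · rintro ⟨j, hj, hji⟩
      rw [mem_filter] at hj
      rw [← einj hji]
      exact hj.2
    · intro h
      exact ⟨i, mem_filter.mpr ⟨mem_univ _, h⟩, rfl⟩
  have rT : ∀ x ∈ T, ∃ i, x = e i := by
    intro x hx
    obtain ⟨i, _, rfl⟩ := mem_image.mp hx
    exact ⟨i, rfl⟩
  set W := (Y.erase y1).erase y2 with hW
  have hTW : T ⊆ W := by
    intro x hx
    obtain ⟨i, rfl⟩ := rT x hx
    have := (mT i).mp hx
    rw [hW, mem_erase, mem_erase]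
    exact ⟨this.2.2.2, this.2.2.1, (mem_erase.mp (emem i)).2⟩
  have hx0T : x0 ∉ T := by
    intro hx
    obtain ⟨i, hi⟩ := rT x0 hx
    exact (mem_erase.mp (emem i)).1 hi.symm
  have hx0W : x0 ∈ W := by
    rw [hW, mem_erase, mem_erase]
    exact ⟨hy2, hy1, hx0⟩
  have inc1 : Inc T ℓ0 l1 := by
    intro s hs u hu hsu
    obtain ⟨i, rfl⟩ := rT s hs
    obtain ⟨j, rfl⟩ := rT u hu
    have a1 := (mT i).mp hs
    have a2 := (mT j).mp hu
    exact (p1 j a2.1 a2.2.1 a2.2.2.1 _ (emem i) a1.2.2.1).mp hsu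
  have inc2 : Inc T ℓ0 l2 := by
    intro s hs u hu hsu
    obtain ⟨i, rfl⟩ := rT s hs
    obtain ⟨j, rfl⟩ := rT u hu
    have a1 := (mT i).mp hs
    have a2 := (mT j).mp hu
    exact (p2 j a2.1 a2.2.1 a2.2.2.2 _ (emem i) a1.2.2.2).mp hsu
  have inc : Inc T l1 l2 := fun s hs u hu hsu => inc2 s hs u hu (inc1.symm h0 s hs u hu hsu)
  have pat : Pat (grp f hf k) W l1 l2 :=
    pat_of_cpt hf (Good.cpt (g1.mono (erase_subset _ _)) (g2.mono (by
      rw [hW, erase_right_comm]; exact erase_subset _ _)))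
  have heq : cnt T l1 x0 = cnt T l2 x0 := by
    by_contra hne
    apply hG
    refine top_of_mid' hk pat i1 i2 hTW inc hx0W hx0T hne (Or.inl ⟨?_, ?_⟩)
    · have eiT : e i ∈ T := (mT i).mpr ⟨by omega, by omega, ei1, ei2⟩
      have c1 := cnt_lt T l1 eiT hx
      rw [← cnt_inc inc1 h0 eiT] at c1
      have c2 : (((univ.filter fun i' : Fin t => endB k + 2 ≤ (i' : ℕ) ∧ (i' : ℕ) < i).image
          e).erase y1).erase y2 ⊆ T.filter fun w => ℓ0 w < ℓ0 (e i) := by
        intro x hx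
        rw [mem_erase, mem_erase] at hx
        obtain ⟨n2, n1, hx⟩ := hx
        obtain ⟨i', hi', rfl⟩ := mem_image.mp hx
        rw [mem_filter] at hi'
        rw [mem_filter]
        exact ⟨(mT i').mpr ⟨hi'.2.1, by omega, n1, n2⟩, emono (by rw [Fin.lt_def]; exact hi'.2.2)⟩
      have c3 := card_le_card c2
      have c4 := fin_card (t := t) (c := endB k + 2) (d := i) i.2.le
      rw [← card_image_of_injective _ einj] at c4
      have c5 := pred_card_le_card_erase (s := ((univ.filter fun i' : Fin t =>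
        endB k + 2 ≤ (i' : ℕ) ∧ (i' : ℕ) < i).image e).erase y1) (a := y2)
      have c6 := pred_card_le_card_erase (s := (univ.filter fun i' : Fin t =>
        endB k + 2 ≤ (i' : ℕ) ∧ (i' : ℕ) < i).image e) (a := y1)
      have c7 : cnt T ℓ0 (e i) = (T.filter fun w => ℓ0 w < ℓ0 (e i)).card := rfl
      omega
    · have ejT : e j ∈ T := (mT j).mpr ⟨by omega, by omega, ej1, ej2⟩
      have c1 := cnt_mono T l1 hx'.le
      rw [← cnt_inc inc1 h0 ejT] at c1
      have c2 : (((univ.filter fun i' : Fin t => (j : ℕ) ≤ (i' : ℕ) ∧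
          (i' : ℕ) < t - (endB k + 2)).image
          e).erase y1).erase y2 ⊆ T.filter fun w => ¬ ℓ0 w < ℓ0 (e j) := by
        intro x hx
        rw [mem_erase, mem_erase] at hx
        obtain ⟨n2, n1, hx⟩ := hx
        obtain ⟨i', hi', rfl⟩ := mem_image.mp hx
        rw [mem_filter] at hi'
        rw [mem_filter, not_lt]
        exact ⟨(mT i').mpr ⟨by omega, by omega, n1, n2⟩,
          emono.monotone (by rw [Fin.le_def]; exact hi'.2.1)⟩
      have c3 := card_le_card c2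
      have c4 := fin_card (t := t) (c := j) (d := t - (endB k + 2)) (by omega)
      rw [← card_image_of_injective _ einj] at c4
      have c5 := pred_card_le_card_erase (s := ((univ.filter fun i' : Fin t =>
        (j : ℕ) ≤ (i' : ℕ) ∧ (i' : ℕ) < t - (endB k + 2)).image e).erase y1) (a := y2)
      have c6 := pred_card_le_card_erase (s := (univ.filter fun i' : Fin t =>
        (j : ℕ) ≤ (i' : ℕ) ∧ (i' : ℕ) < t - (endB k + 2)).image e) (a := y1)
      have c7 : cnt T ℓ0 (e j) = (T.filter fun w => ℓ0 w < ℓ0 (e j)).card := rfl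
      have c8 := card_filter_add_card_filter_not (s := T) (fun w => ℓ0 w < ℓ0 (e j))
      omega
  have inc' := inc_insert inc i1 i2 hx0T heq
  intro i' h1 h2 h3 h4
  have hi'T : e i' ∈ insert x0 T := mem_insert_of_mem ((mT i').mpr ⟨h1, h2, h3, h4⟩)
  have hx0' : x0 ∈ insert x0 T := mem_insert_self _ _
  exact ⟨inc' _ hi'T _ hx0', inc'.symm i1 _ hi'T _ hx0'⟩

/-- how large the set must be -/
def bigB (k : ℕ) : ℕ := 2 * endB k + 7 * k * (7 * k) + 50 * (k + 1)

theorem glue {f g : (Fin m → A) → B} (hf : DetCS f)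
    (hA : ∀ (b : Fin m → A) (U : Finset (Fin m)), (∀ u ∈ U, IsSing b u) → U.card ≤ k + 1)
    (hk : 1 ≤ k) (hG : grp f hf k ≠ ⊤) {Y : Finset (Fin m)} (hc : bigB k ≤ Y.card)
    (hY : ∀ y ∈ Y, ∃ ℓ : Fin m → ℚ, Injective ℓ ∧ Good f g (Y.erase y) ℓ) :
    ∃ ℓ : Fin m → ℚ, Injective ℓ ∧ Good f g Y ℓ := by
  classical
  rw [bigB] at hc
  obtain ⟨x0, hx0⟩ : Y.Nonempty := card_pos.mp (by omega)
  obtain ⟨ℓ0, h0, hg0⟩ := hY x0 hx0
  obtain ⟨t, ht⟩ : ∃ t, (Y.erase x0).card = t := ⟨_, rfl⟩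
  have htc : t + 1 = Y.card := by
    rw [← ht]; exact card_erase_add_one hx0
  obtain ⟨e, emem, emono, esurj, elt⟩ := exists_enum (Y.erase x0) h0 ht
  have einj : Injective e := emono.injective.of_comp
  have ecnt := cnt_eq_of_enum ht emem emono elt
  have key : ∀ y, ∃ l : Fin m → ℚ, y ∈ Y.erase x0 → Injective l ∧ Good f g (Y.erase y) l ∧
      ∀ i : Fin t, endB k + 2 ≤ i → i + endB k + 2 < t → e i ≠ y →
        ∀ w ∈ Y.erase x0, w ≠ y → (ℓ0 w < ℓ0 (e i) ↔ l w < l (e i)) := by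
    intro y
    by_cases hy : y ∈ Y.erase x0
    · obtain ⟨l, hl, hgl⟩ := hY y (mem_erase.mp hy).2
      have hWc : ((Y.erase x0).erase y).card + 1 = t := by
        rw [← ht]; exact card_erase_add_one hy
      obtain ⟨l', hl', hgl', hp⟩ := norm (W := (Y.erase x0).erase y) hf hA hk hG
        (erase_subset _ _) (by rw [erase_right_comm]; exact erase_subset _ _) h0 hl hg0 hgl
        (by omega)
      refine ⟨l', fun _ => ⟨hl', hgl', ?_⟩⟩
      intro i h1 h2 h3 w hw hwy
      have hiW : e i ∈ (Y.erase x0).erase y := mem_erase.mpr ⟨h3, emem i⟩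
      have e1 : ((Y.erase x0).erase y).filter (fun w => ℓ0 w < ℓ0 (e i)) =
          ((Y.erase x0).filter fun w => ℓ0 w < ℓ0 (e i)).erase y := by
        ext w
        simp only [mem_filter, mem_erase]
        tauto
      have e2 := pred_card_le_card_erase
        (s := (Y.erase x0).filter fun w => ℓ0 w < ℓ0 (e i)) (a := y)
      have e3 := card_erase_le (s := (Y.erase x0).filter fun w => ℓ0 w < ℓ0 (e i)) (a := y)
      have e4 := ecnt i
      rw [← e1] at e2 e3
      unfold cnt at e4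
      refine hp (e i) hiW ?_ ?_ w (mem_erase.mpr ⟨hwy, hw⟩)
      · unfold cnt
        omega
      · unfold cnt
        omega
    · exact ⟨ℓ0, fun h => absurd h hy⟩
  choose L hL using key
  obtain ⟨s, hs⟩ : ∃ s, s = k + 1 := ⟨_, rfl⟩
  obtain ⟨a1, ha1⟩ : ∃ a, a = endB k + 2 + 2 * k + 3 + s := ⟨_, rfl⟩
  -- a good candidate
  obtain ⟨a, haL, haU, hat, hgood⟩ : ∃ a : ℕ, ∃ haL : a1 ≤ a, ∃ haU : a ≤ a1 + 2 * s,
      ∃ hat : a + s < t, ¬ (L (e ⟨a, by omega⟩) (e ⟨a - s, by omega⟩) < L (e ⟨a, by omega⟩) x0 ∧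
        L (e ⟨a, by omega⟩) x0 < L (e ⟨a, by omega⟩) (e ⟨a + s, hat⟩)) := by
    by_contra hcon
    push Not at hcon
    by_cases hb : L (e ⟨a1, by omega⟩) (e ⟨a1 - s, by omega⟩) < L (e ⟨a1, by omega⟩) x0 ∧
        L (e ⟨a1, by omega⟩) x0 < L (e ⟨a1, by omega⟩) (e ⟨a1 + s, by omega⟩)
    · by_cases hb2 : L (e ⟨a1 + 2 * s, by omega⟩) (e ⟨a1 + 2 * s - s, by omega⟩) <
        L (e ⟨a1 + 2 * s, by omega⟩) x0 ∧
        L (e ⟨a1 + 2 * s, by omega⟩) x0 <
          L (e ⟨a1 + 2 * s, by omega⟩) (e ⟨a1 + 2 * s + s, by omega⟩)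
      · have m1 := hL (e ⟨a1, by omega⟩) (emem _)
        have m2 := hL (e ⟨a1 + 2 * s, by omega⟩) (emem _)
        have ne : ∀ i j : Fin t, (i : ℕ) ≠ j → e i ≠ e j := fun i j hij h =>
          hij (congrArg Fin.val (einj h))
        have := mid_const hf hk hG hx0 einj emem h0 emono (mem_erase.mp (emem _)).1.symm
          (mem_erase.mp (emem _)).1.symm m1.1 m2.1 m1.2.1 m2.2.1 m1.2.2 m2.2.2
          (i := ⟨a1 - s, by omega⟩) (j := ⟨a1 + s, by omega⟩) (by simp only; omega)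
          (by rw [Fin.mk_lt_mk]; omega) (by simp only; omega)
          (ne _ _ (by simp only; omega)) (ne _ _ (by simp only; omega))
          (ne _ _ (by simp only; omega)) (ne _ _ (by simp only; omega)) hb.1 hb.2
          ⟨a1 + s, by omega⟩ (by simp only; omega) (by simp only; omega)
          (ne _ _ (by simp only; omega)) (ne _ _ (by simp only; omega))
        have e5 : a1 + 2 * s - s = a1 + s := by omega
        simp only [e5] at hb2
        exact absurd (this.mpr hb2.1) hb.2.asymm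
      · exact absurd (hcon (a1 + 2 * s) (by omega) le_rfl (by omega)) (by
          intro h
          apply hb2
          refine ⟨?_, ?_⟩
          · by_contra hn
            exact hn (by tauto)
          · by_contra hn
            exact hn (by tauto))
    · exact absurd (hcon a1 le_rfl (by omega) (by omega)) (by
          intro h
          apply hb
          refine ⟨?_, ?_⟩
          · by_contra hn
            exact hn (by tauto)
          · by_contra hn
            exact hn (by tauto))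
  -- the ball
  set x1 := e ⟨a, by omega⟩ with hx1
  have hx1m : x1 ∈ Y.erase x0 := emem _
  have hx1Y : x1 ∈ Y := (mem_erase.mp hx1m).2
  have hx01 : x0 ≠ x1 := (mem_erase.mp hx1m).1.symm
  set l1 := L x1 with hl1
  obtain ⟨i1, g1, p1⟩ := hL x1 hx1m
  have nex1 : ∀ i : Fin t, (i : ℕ) ≠ a → e i ≠ x1 := fun i hi h =>
    hi (congrArg Fin.val (einj h))
  have ord1 : ∀ i j : Fin t, (i : ℕ) ≠ a → (j : ℕ) ≠ a → i < j →
      (endB k + 2 ≤ j ∧ j + endB k + 2 < t ∨ endB k + 2 ≤ i ∧ i + endB k + 2 < t) →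
      l1 (e i) < l1 (e j) := by
    intro i j hi hj hij hor
    rcases hor with h | h
    · exact (p1 j h.1 h.2 (nex1 j hj) _ (emem i) (nex1 i hi)).mp (emono hij)
    · have := (p1 i h.1 h.2 (nex1 i hi) _ (emem j) (nex1 j hj)).not.mp (emono hij).asymm
      exact lt_of_le_of_ne (not_lt.mp this) fun h' => hij.ne (einj (i1 h'))
  have hlt : l1 (e ⟨a - 1, by omega⟩) < l1 (e ⟨a + 1, by omega⟩) :=
    ord1 _ _ (by simp only; omega) (by simp only; omega) (by rw [Fin.mk_lt_mk]; omega)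
      (Or.inl ⟨by simp only; omega, by simp only; omega⟩)
  obtain ⟨v, hv, hvn⟩ := (Set.Ioo_infinite hlt).exists_notMem_finset (univ.image l1)
  have hvn' : ∀ x, x ≠ x1 → l1 x ≠ v := fun x _ h => hvn (h ▸ mem_image_of_mem _ (mem_univ _))
  set ℓ := update l1 x1 v with hℓ
  have hℓi : Injective ℓ := upd_inj i1 hvn'
  have hℓne : ∀ x, x ≠ x1 → ℓ x = l1 x := fun x hx => update_of_ne hx _ _
  have hℓx1 : ℓ x1 = v := update_self _ _ _
  have good1 : Good f g (Y.erase x1) ℓ := by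
    apply g1.of_cpt
    apply cpt_of_inc hf i1
    intro s hs u hu hsu
    rw [hℓne s (mem_erase.mp hs).1, hℓne u (mem_erase.mp hu).1]
    exact hsu
  have ordl : ∀ i j : Fin t, i < j → ((a ≤ i + s ∧ (i : ℕ) ≤ a + s) ∨
      (a ≤ j + s ∧ (j : ℕ) ≤ a + s)) → ℓ (e i) < ℓ (e j) := by
    intro i j hij hor
    have hij' : (i : ℕ) < j := hij
    by_cases hi : (i : ℕ) = a
    · have hj : (j : ℕ) ≠ a := by omega
      have e1 : e i = x1 := congrArg e (Fin.ext hi)
      rw [e1, hℓx1, hℓne _ (nex1 j hj)]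
      refine hv.2.trans_le ?_
      by_cases hj1 : (j : ℕ) = a + 1
      · have : (⟨a + 1, by omega⟩ : Fin t) = j := Fin.ext hj1.symm
        rw [this]
      · exact (ord1 _ j (by simp only; omega) hj (by rw [Fin.lt_def]; simp only; omega)
          (Or.inr ⟨by simp only; omega, by simp only; omega⟩)).le
    · by_cases hj : (j : ℕ) = a
      · have e1 : e j = x1 := congrArg e (Fin.ext hj)
        rw [e1, hℓx1, hℓne _ (nex1 i hi)]
        refine lt_of_le_of_lt ?_ hv.1
        by_cases hi1 : (i : ℕ) = a - 1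
        · have : (⟨a - 1, by omega⟩ : Fin t) = i := Fin.ext hi1.symm
          rw [this]
        · exact (ord1 i _ hi (by simp only; omega) (by rw [Fin.lt_def]; simp only; omega)
            (Or.inl ⟨by simp only; omega, by simp only; omega⟩)).le
      · rw [hℓne _ (nex1 i hi), hℓne _ (nex1 j hj)]
        apply ord1 i j hi hj hij
        rcases hor with h | h
        · right; constructor <;> omega
        · left; constructor <;> omega
  have side0 : (∀ i : Fin t, a ≤ i + s → (i : ℕ) ≤ a + s → ℓ x0 < ℓ (e i)) ∨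
      (∀ i : Fin t, a ≤ i + s → (i : ℕ) ≤ a + s → ℓ (e i) < ℓ x0) := by
    rw [hℓne x0 hx01]
    have nee : ∀ i, e i ≠ x0 := fun i => (mem_erase.mp (emem i)).1
    rcases not_and_or.mp hgood with h | h
    · left
      have h' : l1 x0 < l1 (e ⟨a - s, by omega⟩) :=
        lt_of_le_of_ne (not_lt.mp h) fun h' => nee _ (i1 h').symm
      rw [← hℓne _ (nex1 _ (by simp only; omega))] at h'
      intro i hi1 hi2
      by_cases hi : (i : ℕ) = a - s
      · have : (⟨a - s, by omega⟩ : Fin t) = i := Fin.ext hi.symm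
        rw [this] at h'
        exact h'
      · exact h'.trans (ordl _ _ (by rw [Fin.lt_def]; simp only; omega) (Or.inr ⟨hi1, hi2⟩))
    · right
      have h' : l1 (e ⟨a + s, hat⟩) < l1 x0 :=
        lt_of_le_of_ne (not_lt.mp h) fun h' => nee _ (i1 h')
      rw [← hℓne _ (nex1 _ (by simp only; omega))] at h'
      intro i hi1 hi2
      by_cases hi : (i : ℕ) = a + s
      · have : (⟨a + s, hat⟩ : Fin t) = i := Fin.ext hi.symm
        rw [this] at h'
        exact h'
      · exact (ordl _ _ (by rw [Fin.lt_def]; simp only; omega) (Or.inl ⟨hi1, hi2⟩)).trans h'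
  refine ⟨ℓ, hℓi, ?_⟩
  intro b hb
  by_cases hbx : IsSing b x1
  swap
  · exact good1 b fun x hx => mem_erase.mpr ⟨fun h => hbx (h ▸ hx), hb x hx⟩
  set P : Finset (Fin m) := univ.filter fun x => IsSing b x with hP
  have mP : ∀ x, x ∈ P ↔ IsSing b x := fun x => by simp [hP]
  have hPc : P.card ≤ s := by
    rw [hs]; exact hA b P fun u hu => (mP u).mp hu
  -- choice of `y`
  obtain ⟨iy, hiy1, hiy2, hiyP⟩ : ∃ iy : Fin t, a + s < iy ∧ iy + endB k + 2 < t ∧ e iy ∉ P := by
    have c4 := fin_card (t := t) (c := a + s + 1) (d := t - (endB k + 2)) (by omega)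
    rw [← card_image_of_injective _ einj] at c4
    obtain ⟨y, hy1, hy2⟩ := exists_mem_notMem_of_card_lt_card (s := P)
      (t := (univ.filter fun i : Fin t => a + s + 1 ≤ (i : ℕ) ∧
        (i : ℕ) < t - (endB k + 2)).image e) (by omega)
    obtain ⟨i, hi, rfl⟩ := mem_image.mp hy1
    rw [mem_filter] at hi
    exact ⟨i, by omega, by omega, hy2⟩
  set y := e iy with hy
  obtain ⟨iyi, gy, py⟩ := hL y (emem iy)
  set ly := L y with hly
  have ney : ∀ i : Fin t, (i : ℕ) ≠ iy → e i ≠ y := fun i hi h =>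
    hi (congrArg Fin.val (einj h))
  have hy0 : x0 ≠ y := (mem_erase.mp (emem iy)).1.symm
  have ordy : ∀ i j : Fin t, (i : ℕ) ≠ iy → (j : ℕ) ≠ iy → i < j →
      ((a ≤ i + s ∧ (i : ℕ) ≤ a + s) ∨ (a ≤ j + s ∧ (j : ℕ) ≤ a + s)) →
      ly (e i) < ly (e j) := by
    intro i j hi hj hij hor
    rcases hor with h | h
    · have := (py i (by omega) (by omega) (ney i hi) _ (emem j) (ney j hj)).not.mp (emono hij).asymm
      exact lt_of_le_of_ne (not_lt.mp this) fun h' => hij.ne (einj (iyi h'))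
    · exact (py j (by omega) (by omega) (ney j hj) _ (emem i) (ney i hi)).mp (emono hij)
  have nee : ∀ i, e i ≠ x0 := fun i => (mem_erase.mp (emem i)).1
  have hgoody : ¬ (ly (e ⟨a - s, by omega⟩) < ly x0 ∧ ly x0 < ly (e ⟨a + s, hat⟩)) := by
    rintro ⟨hb1, hb2⟩
    have mc := mid_const hf hk hG hx0 einj emem h0 emono hy0 hx01 iyi i1 gy g1 py p1
      (i := ⟨a - s, by omega⟩) (j := ⟨a + s, hat⟩) (by simp only; omega)
      (by rw [Fin.mk_lt_mk]; omega) (by simp only; omega)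
      (ney _ (by simp only; omega)) (nex1 _ (by simp only; omega))
      (ney _ (by simp only; omega)) (nex1 _ (by simp only; omega)) hb1 hb2
    have m1 := (mc ⟨a - s, by omega⟩ (by simp only; omega) (by simp only; omega)
      (ney _ (by simp only; omega)) (nex1 _ (by simp only; omega))).mp hb1
    have m2 := (mc ⟨a + s, hat⟩ (by simp only; omega) (by simp only; omega)
      (ney _ (by simp only; omega)) (nex1 _ (by simp only; omega))).not.mp hb2.asymm
    exact hgood ⟨m1, lt_of_le_of_ne (not_lt.mp m2) fun h' => nee _ (i1 h').symm⟩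
  have sidey : (∀ i : Fin t, a ≤ i + s → (i : ℕ) ≤ a + s → ly x0 < ly (e i)) ∨
      (∀ i : Fin t, a ≤ i + s → (i : ℕ) ≤ a + s → ly (e i) < ly x0) := by
    rcases not_and_or.mp hgoody with h | h
    · left
      have h' : ly x0 < ly (e ⟨a - s, by omega⟩) :=
        lt_of_le_of_ne (not_lt.mp h) fun h' => nee _ (iyi h').symm
      intro i hi1 hi2
      by_cases hi : (i : ℕ) = a - s
      · have : (⟨a - s, by omega⟩ : Fin t) = i := Fin.ext hi.symm
        rw [this] at h'
        exact h'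
      · exact h'.trans (ordy _ _ (by simp only; omega) (by omega)
          (by rw [Fin.lt_def]; simp only; omega) (Or.inr ⟨hi1, hi2⟩))
    · right
      have h' : ly (e ⟨a + s, hat⟩) < ly x0 :=
        lt_of_le_of_ne (not_lt.mp h) fun h' => nee _ (iyi h')
      intro i hi1 hi2
      by_cases hi : (i : ℕ) = a + s
      · have : (⟨a + s, hat⟩ : Fin t) = i := Fin.ext hi.symm
        rw [this] at h'
        exact h'
      · exact (ordy _ _ (by omega) (by simp only; omega)
          (by rw [Fin.lt_def]; simp only; omega) (Or.inl ⟨hi1, hi2⟩)).trans h'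
  obtain ⟨Φ, hΦ1, hΦ2⟩ := ball einj (a := a) (s := s) (by omega) hat hPc
  set b' : Fin m → A := fun i => b (Φ.symm i) with hb'
  have hbb : b = fun i => b' (Φ i) := by
    funext i; simp [hb']
  have hs' : ∀ x, IsSing b' (Φ x) → x ∈ P := by
    intro x hx
    rw [← isSing_comp b' Φ, ← hbb] at hx
    exact (mP x).mpr hx
  have hPY : ∀ x ∈ P, x ∈ Y := fun x hx => hb x ((mP x).mp hx)
  have tl : ev f ℓ b = ev f ℓ b' := by
    conv_lhs => rw [hbb]
    apply ev_transfer hf Φ b' hℓi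
    intro x y hx hy hxy
    refine hΦ2 ℓ (fun i j hi1 hi2 hj1 hj2 hij => ordl i j hij (Or.inl ⟨hi1, hi2⟩)) ?_ x
      (hs' x hx) y (hs' y hy) hxy
    intro w hw hwe
    by_cases hw0 : w = x0
    · rw [hw0]; exact side0
    · obtain ⟨i, rfl⟩ := esurj w (mem_erase.mpr ⟨hw0, hPY w hw⟩)
      have hiJ : ¬ (a ≤ i + s ∧ (i : ℕ) ≤ a + s) := fun h => hwe i h.1 h.2 rfl
      by_cases hia : a ≤ i + s
      · right
        intro j hj1 hj2
        exact ordl j i (by rw [Fin.lt_def]; omega) (Or.inl ⟨hj1, hj2⟩)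
      · left
        intro j hj1 hj2
        exact ordl i j (by rw [Fin.lt_def]; omega) (Or.inr ⟨hj1, hj2⟩)
  have ty : ev f ly b = ev f ly b' := by
    conv_lhs => rw [hbb]
    apply ev_transfer hf Φ b' iyi
    intro x y hx hy hxy
    refine hΦ2 ly (fun i j hi1 hi2 hj1 hj2 hij => ordy i j (by omega) (by omega) hij
      (Or.inl ⟨hi1, hi2⟩)) ?_ x (hs' x hx) y (hs' y hy) hxy
    intro w hw hwe
    by_cases hw0 : w = x0
    · rw [hw0]; exact sidey
    · obtain ⟨i, rfl⟩ := esurj w (mem_erase.mpr ⟨hw0, hPY w hw⟩)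
      have hiJ : ¬ (a ≤ i + s ∧ (i : ℕ) ≤ a + s) := fun h => hwe i h.1 h.2 rfl
      have hiiy : (i : ℕ) ≠ iy := by
        intro h
        rw [show i = iy from Fin.ext h] at hw
        exact hiyP hw
      by_cases hia : a ≤ i + s
      · right
        intro j hj1 hj2
        exact ordy j i (by omega) hiiy (by rw [Fin.lt_def]; omega) (Or.inl ⟨hj1, hj2⟩)
      · left
        intro j hj1 hj2
        exact ordy i j hiiy (by omega) (by rw [Fin.lt_def]; omega) (Or.inr ⟨hj1, hj2⟩)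
  have hb'Y : ∀ z, IsSing b' z → z ∈ Y ∧ z ≠ x1 ∧ z ≠ y := by
    intro z hz
    obtain ⟨x, rfl⟩ := Φ.surjective z
    have hxP := hs' x hz
    rcases hΦ1 x hxP with ⟨i, h1, h2, h3⟩ | ⟨h1, h2⟩
    · rw [h3]
      exact ⟨(mem_erase.mp (emem i)).2, nex1 i (by omega), ney i (by omega)⟩
    · rw [h1]
      refine ⟨hPY x hxP, ?_, ?_⟩
      · exact h2 ⟨a, by omega⟩ (by simp only; omega) (by simp only; omega)
      · intro h
        rw [h] at hxP
        exact hiyP hxP
  have gb1 : g b' = ev f ℓ b' :=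
    good1 b' fun z hz => mem_erase.mpr ⟨(hb'Y z hz).2.1, (hb'Y z hz).1⟩
  have gb2 : g b' = ev f ly b' :=
    gy b' fun z hz => mem_erase.mpr ⟨(hb'Y z hz).2.2, (hb'Y z hz).1⟩
  have gb3 : g b = ev f ly b := by
    apply gy b
    intro z hz
    refine mem_erase.mpr ⟨fun h => ?_, hb z hz⟩
    rw [h] at hz
    exact hiyP ((mP _).mpr hz)
  rw [gb3, ty, ← gb2, gb1, ← tl]

end Pool.Agent.J6H12.Rec
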