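import Mathlib

/-!
# The permutations which move one point
-/

open Equiv

namespace Pool.Agent.J6H12.Rec

variable {k : ℕ}

/-- the permutation of `Fin (k+1)` which moves `α'` to `α` and keeps the order of the other
points -/
def cyc (α α' : Fin (k + 1)) : Equiv.Perm (Fin (k + 1)) :=
  (finSuccEquiv' α').trans (finSuccEquiv' α).symm

theorem cyc_self (α α' : Fin (k + 1)) : cyc α α' α' = α := by simp [cyc]

theorem cyc_succAbove (α α' : Fin (k + 1)) (i : Fin k) :
    cyc α α' (α'.succAbove i) = α.succAbove i := by simp [cyc]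

theorem cyc_mul (α β γ : Fin (k + 1)) : cyc α β * cyc β γ = cyc α γ := by
  ext x
  simp [cyc]

theorem cyc_refl (α : Fin (k + 1)) : cyc α α = 1 := by
  ext x
  simp [cyc]

theorem cyc_inv (α β : Fin (k + 1)) : (cyc α β)⁻¹ = cyc β α := by
  rw [inv_eq_iff_mul_eq_one, cyc_mul, cyc_refl]

theorem cyc_adj (i : Fin k) : cyc i.castSucc i.succ = swap i.castSucc i.succ := by
  ext x
  rcases Fin.eq_self_or_eq_succAbove i.succ x with rfl | ⟨j, rfl⟩
  · rw [cyc_self, swap_apply_right]
  · rw [cyc_succAbove]
    rcases lt_trichotomy j i with h | h | h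
    · rw [Fin.succAbove_of_castSucc_lt _ _ (by simpa using h),
        Fin.succAbove_of_castSucc_lt _ _ (by
          rw [Fin.lt_def] at *; simp; omega)]
      rw [swap_apply_of_ne_of_ne]
      · intro h'
        rw [Fin.ext_iff] at h'
        simp at h'
        omega
      · intro h'
        rw [Fin.ext_iff] at h'
        simp at h'
        rw [Fin.lt_def] at h
        omega
    · subst h
      rw [Fin.succAbove_castSucc_self, Fin.succAbove_succ_self, swap_apply_left]
    · rw [Fin.succAbove_of_le_castSucc _ _ (by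
          rw [Fin.le_def]; rw [Fin.lt_def] at h; simp; omega),
        Fin.succAbove_of_le_castSucc _ _ (by
          rw [Fin.le_def]; rw [Fin.lt_def] at h; simp; omega)]
      rw [swap_apply_of_ne_of_ne]
      · intro h'
        rw [Fin.ext_iff] at h'
        simp at h'
        rw [Fin.lt_def] at h
        omega
      · intro h'
        rw [Fin.ext_iff] at h'
        simp at h'
        rw [Fin.lt_def] at h
        omega

theorem cyc_zero_last : cyc 0 (Fin.last k) = finRotate (k + 1) := by
  ext x
  rcases Fin.eq_self_or_eq_succAbove (Fin.last k) x with rfl | ⟨j, rfl⟩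
  · rw [cyc_self]; simp
  · rw [cyc_succAbove]
    simp

theorem top_of_adj (G : Subgroup (Perm (Fin (k + 1))))
    (h : ∀ i : Fin k, cyc i.castSucc i.succ ∈ G) : G = ⊤ := by
  rw [eq_top_iff]
  intro x _
  have hx : x ∈ Submonoid.closure (Set.range fun i : Fin k => swap i.castSucc i.succ) := by
    rw [Equiv.Perm.mclosure_swap_castSucc_succ]; trivial
  have : Submonoid.closure (Set.range fun i : Fin k => swap i.castSucc i.succ) ≤ G.toSubmonoid := by
    rw [Submonoid.closure_le]
    rintro _ ⟨i, rfl⟩
    have := h i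
    rw [cyc_adj] at this
    exact this
  exact this hx

theorem top_of_rot (G : Subgroup (Perm (Fin (k + 1)))) (hr : cyc 0 (Fin.last k) ∈ G)
    (i : Fin k) (h : cyc i.castSucc i.succ ∈ G) : G = ⊤ := by
  obtain ⟨k, rfl⟩ : ∃ k', k = k' + 1 := ⟨k - 1, by have := i.2; omega⟩
  rw [eq_top_iff, ← Equiv.Perm.closure_cycle_adjacent_swap (σ := finRotate (k + 1 + 1))
    isCycle_finRotate (by rw [support_finRotate]) i.castSucc]
  rw [Subgroup.closure_le]
  rintro _ (rfl | rfl)
  · rw [cyc_zero_last] at hr
    exact hr
  · rw [cyc_adj] at h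
    have : finRotate (k + 1 + 1) i.castSucc = i.succ := by
      rw [finRotate_apply]
      exact Fin.coeSucc_eq_succ
    rw [this]
    exact h

end Pool.Agent.J6H12.Rec
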