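import Pool.Agent.J6H12.Rec.Comb

/-!
# Inversions happen only near the ends
-/

open Equiv Function Finset

namespace Pool.Agent.J6H12.Rec

variable {k m : ℕ} {G : Subgroup (Perm (Fin (k + 1)))} {W : Finset (Fin m)} {ℓ ℓ' : Fin m → ℚ}

theorem inc_of_large (hG : cyc 0 (Fin.last k) ∉ G) (h : Pat G W ℓ ℓ') (hℓ : Injective ℓ)
    (hℓ' : Injective ℓ') {V : Finset (Fin m)} (hV : V ⊆ W) {u : Fin m} (hu : u ∈ W)
    (h1 : ∀ d ∈ V, ℓ d < ℓ u) (h2 : ∀ d ∈ V, ℓ' d < ℓ' u) (hc : (k + 1) * (k + 1) < V.card) :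
    ∃ S ⊆ V, k + 1 < S.card ∧ Inc S ℓ ℓ' := by
  obtain ⟨S, hS, hSc, hi | hi⟩ := es hℓ hℓ' V hc
  · exact ⟨S, hS, hSc, hi⟩
  · exfalso
    exact hG (rot_of_dec h hℓ hℓ' (hS.trans hV) hi hSc.le hu (fun d hd => h1 d (hS hd))
      (fun d hd => h2 d (hS hd)))

theorem low_bound (hG : G ≠ ⊤) (hR : cyc 0 (Fin.last k) ∉ G) (h : Pat G W ℓ ℓ')
    (hℓ : Injective ℓ) (hℓ' : Injective ℓ') {x y : Fin m} (hx : x ∈ W) (hy : y ∈ W)
    (hxy : ℓ x < ℓ y) (hyx : ℓ' y < ℓ' x) {U : Finset (Fin m)} (hU : U ⊆ W) (hUi : Inc U ℓ ℓ')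
    (hUc : k + 1 ≤ U.card)
    (hUa : ∀ u ∈ U, ∀ v ∈ W, ℓ v ≤ ℓ y → ℓ v < ℓ u ∧ ℓ' v < ℓ' u) :
    cnt W ℓ y ≤ 3 * ((k + 1) * (k + 1)) := by
  classical
  obtain ⟨u, hu⟩ : U.Nonempty := card_pos.mp (by omega)
  have huW := hU hu
  set V := W.filter fun v => ℓ v < ℓ y with hV
  set V2 := W.filter fun v => ℓ v < ℓ y ∧ ℓ' y < ℓ' v with hV2
  set V1 := W.filter fun v => ℓ v < ℓ y ∧ ℓ' v < ℓ' y ∧ ℓ x < ℓ v with hV1
  set V0 := W.filter fun v => ℓ v < ℓ y ∧ ℓ' v < ℓ' y ∧ ℓ v < ℓ x with hV0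
  have hsub : V ⊆ V2 ∪ (V1 ∪ V0) := by
    intro v hv
    rw [hV, mem_filter] at hv
    obtain ⟨hvW, hvy⟩ := hv
    simp only [hV2, hV1, hV0, mem_union, mem_filter]
    rcases lt_trichotomy (ℓ' v) (ℓ' y) with h1 | h1 | h1
    · right
      rcases lt_trichotomy (ℓ v) (ℓ x) with h2 | h2 | h2
      · exact Or.inr ⟨hvW, hvy, h1, h2⟩
      · exfalso
        rw [hℓ h2] at h1
        exact h1.asymm hyx
      · exact Or.inl ⟨hvW, hvy, h1, h2⟩
    · exfalso
      rw [hℓ' h1] at hvy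
      exact lt_irrefl _ hvy
    · left
      exact ⟨hvW, hvy, h1⟩
  have gen : ∀ S : Finset (Fin m), S ⊆ V → S ⊆ W ∧ (∀ d ∈ S, ℓ d < ℓ u) ∧ ∀ d ∈ S, ℓ' d < ℓ' u := by
    intro S hS
    have hSW : S ⊆ W := hS.trans (filter_subset _ _)
    refine ⟨hSW, fun d hd => ?_, fun d hd => ?_⟩
    · exact (hUa u hu d (hSW hd) (mem_filter.mp (hS hd)).2.le).1
    · exact (hUa u hu d (hSW hd) (mem_filter.mp (hS hd)).2.le).2
  have s2 : V2 ⊆ V := by
    intro v
    simp only [hV2, hV, mem_filter]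
    exact fun h => ⟨h.1, h.2.1⟩
  have s1 : V1 ⊆ V := by
    intro v
    simp only [hV1, hV, mem_filter]
    exact fun h => ⟨h.1, h.2.1⟩
  have s0 : V0 ⊆ V := by
    intro v
    simp only [hV0, hV, mem_filter]
    exact fun h => ⟨h.1, h.2.1⟩
  have b2 : V2.card ≤ (k + 1) * (k + 1) := by
    by_contra hc
    obtain ⟨g1, g2, g3⟩ := gen V2 s2
    obtain ⟨S, hS, hSc, hSi⟩ := inc_of_large hR h hℓ hℓ' g1 huW g2 g3 (not_le.mp hc)
    have hyS : y ∉ S := fun h => lt_irrefl _ (mem_filter.mp (hS h)).2.1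
    apply hR
    apply rot_of_gap' h hℓ hℓ' (hS.trans g1) hSi hy hyS
    have e1 : cnt S ℓ y = S.card := by
      rw [cnt, filter_true_of_mem fun v hv => (mem_filter.mp (hS hv)).2.1]
    have e2 : cnt S ℓ' y = 0 := by
      rw [cnt, card_eq_zero, filter_eq_empty_iff]
      exact fun v hv => (mem_filter.mp (hS hv)).2.2.asymm
    omega
  have b1 : V1.card ≤ (k + 1) * (k + 1) := by
    by_contra hc
    obtain ⟨g1, g2, g3⟩ := gen V1 s1
    obtain ⟨S, hS, hSc, hSi⟩ := inc_of_large hR h hℓ hℓ' g1 huW g2 g3 (not_le.mp hc)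
    have hxS : x ∉ S := fun h => lt_irrefl _ (mem_filter.mp (hS h)).2.2.2
    apply hR
    apply rot_of_gap h hℓ hℓ' (hS.trans g1) hSi hx hxS
    have e1 : cnt S ℓ' x = S.card := by
      rw [cnt, filter_true_of_mem fun v hv => (mem_filter.mp (hS hv)).2.2.1.trans hyx]
    have e2 : cnt S ℓ x = 0 := by
      rw [cnt, card_eq_zero, filter_eq_empty_iff]
      exact fun v hv => (mem_filter.mp (hS hv)).2.2.2.asymm
    omega
  have b0 : V0.card ≤ (k + 1) * (k + 1) := by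
    by_contra hc
    obtain ⟨g1, g2, g3⟩ := gen V0 s0
    obtain ⟨S, hS, hSc, hSi⟩ := inc_of_large hR h hℓ hℓ' g1 huW g2 g3 (not_le.mp hc)
    have Sp : ∀ v ∈ S, v ∈ W ∧ ℓ v < ℓ y ∧ ℓ' v < ℓ' y ∧ ℓ v < ℓ x :=
      fun v hv => mem_filter.mp (hS hv)
    have Uy : ∀ u ∈ U, ℓ y < ℓ u ∧ ℓ' y < ℓ' u := fun u hu => hUa u hu y hy le_rfl
    have Ux : ∀ u ∈ U, ℓ x < ℓ u ∧ ℓ' x < ℓ' u := fun u hu => hUa u hu x hx hxy.le
    have US : ∀ u ∈ U, ∀ v ∈ S, ℓ v < ℓ u ∧ ℓ' v < ℓ' u :=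
      fun u hu v hv => hUa u hu v (Sp v hv).1 (Sp v hv).2.1.le
    have hyS : y ∉ S := fun h => lt_irrefl _ (Sp y h).2.1
    have hyU : y ∉ U := fun h => lt_irrefl _ (Uy y h).1
    set T := S ∪ insert y U with hT
    have hTW : T ⊆ W := by
      intro v hv
      rw [hT, mem_union, mem_insert] at hv
      rcases hv with h | rfl | h
      · exact (Sp v h).1
      · exact hy
      · exact hU h
    have hTi : Inc T ℓ ℓ' := by
      intro s hs t ht hst
      rw [hT, mem_union, mem_insert] at hs ht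
      rcases hs with hs | rfl | hs <;> rcases ht with ht | rfl | ht
      · exact hSi s hs t ht hst
      · exact (Sp s hs).2.2.1
      · exact (US t ht s hs).2
      · exact absurd hst (Sp t ht).2.1.asymm
      · exact absurd hst (lt_irrefl _)
      · exact (Uy t ht).2
      · exact absurd hst (US s hs t ht).1.asymm
      · exact absurd hst (Uy s hs).1.asymm
      · exact hUi s hs t ht hst
    have hxT : x ∉ T := by
      rw [hT, mem_union, mem_insert]
      rintro (h | h | h)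
      · exact lt_irrefl _ (Sp x h).2.2.2
      · rw [h] at hxy; exact lt_irrefl _ hxy
      · exact lt_irrefl _ (Ux x h).1
    have dSU : Disjoint S (insert y U) := by
      rw [disjoint_left]
      intro v hv hv'
      rw [mem_insert] at hv'
      rcases hv' with rfl | hv'
      · exact hyS hv
      · exact lt_irrefl _ (US v hv' v hv).1
    have cT : T.card = S.card + (1 + U.card) := by
      rw [hT, card_union_of_disjoint dSU, card_insert_of_notMem hyU]
      ring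
    have e1 : cnt T ℓ x = S.card := by
      rw [cnt]
      congr 1
      ext v
      rw [mem_filter, hT, mem_union, mem_insert]
      constructor
      · rintro ⟨h | rfl | h, h'⟩
        · exact h
        · exact absurd h' hxy.asymm
        · exact absurd h' (Ux v h).1.asymm
      · intro h
        exact ⟨Or.inl h, (Sp v h).2.2.2⟩
    have e2 : cnt T ℓ' x = S.card + 1 := by
      rw [cnt, ← card_insert_of_notMem hyS]
      congr 1
      ext v
      rw [mem_filter, hT, mem_union, mem_insert, mem_insert]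
      constructor
      · rintro ⟨h | rfl | h, h'⟩
        · exact Or.inr h
        · exact Or.inl rfl
        · exact absurd h' (Ux v h).2.asymm
      · rintro (rfl | h)
        · exact ⟨Or.inr (Or.inl rfl), hyx⟩
        · exact ⟨Or.inl h, (Sp v h).2.2.1.trans hyx⟩
    apply hG
    apply top_of_adj
    intro i
    have hi := i.2
    apply h.ins hℓ hℓ' hTW hTi hx hxT (Fin.castSucc_lt_succ).le
    · simp only [Fin.val_castSucc]; omega
    · simp only [Fin.val_castSucc, Fin.val_succ]; omega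
    · simp only [Fin.val_succ]; omega
  calc cnt W ℓ y = V.card := rfl
    _ ≤ (V2 ∪ (V1 ∪ V0)).card := card_le_card hsub
    _ ≤ V2.card + (V1.card + V0.card) :=
        (card_union_le _ _).trans (Nat.add_le_add_left (card_union_le _ _) _)
    _ ≤ _ := by omega

end Pool.Agent.J6H12.Rec
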