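import Pool.Agent.J6H12.Rec.Ev

/-!
# Normalization of a good order relative to another good order
-/

open Equiv Function Finset

namespace Pool.Agent.J6H12.Rec

open Pool.Agent.R795.Min (DetCS IsSing content sing)

variable {A B : Type} [DecidableEq A] {k m : ℕ}

theorem upd_inj {ℓ : Fin m → ℚ} (hℓ : Injective ℓ) {z : Fin m} {v : ℚ}
    (hv : ∀ x, x ≠ z → ℓ x ≠ v) : Injective (update ℓ z v) := by
  intro x y hxy
  by_cases hx : x = z
  · by_cases hy : y = z
    · rw [hx, hy]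
    · rw [hx, update_self, update_of_ne hy] at hxy
      exact absurd hxy.symm (hv y hy)
  · by_cases hy : y = z
    · rw [hy, update_self, update_of_ne hx] at hxy
      exact absurd hxy (hv x hx)
    · rw [update_of_ne hx, update_of_ne hy] at hxy
      exact hℓ hxy

theorem exists_above (ℓ : Fin m → ℚ) : ∃ v, ∀ x, ℓ x < v := by
  obtain ⟨u, hu⟩ := (Set.finite_range ℓ).bddAbove
  exact ⟨u + 1, fun x => (hu ⟨x, rfl⟩).trans_lt (lt_add_one u)⟩

theorem exists_below (ℓ : Fin m → ℚ) : ∃ v, ∀ x, v < ℓ x := by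
  obtain ⟨u, hu⟩ := (Set.finite_range ℓ).bddBelow
  exact ⟨u - 1, fun x => (sub_one_lt u).trans_le (hu ⟨x, rfl⟩)⟩

theorem rotate_to {f g : (Fin m → A) → B} (hf : DetCS f)
    (hA : ∀ (b : Fin m → A) (U : Finset (Fin m)), (∀ u ∈ U, IsSing b u) → U.card ≤ k + 1)
    {Z : Finset (Fin m)} (hZ : k + 1 ≤ Z.card) (hr : cyc 0 (Fin.last k) ∈ grp f hf k)
    {c : Fin m} (hc : c ∈ Z) (n : ℕ) :
    ∀ ℓ : Fin m → ℚ, Injective ℓ → Good f g Z ℓ → cnt Z ℓ c = n →
    ∃ ℓ1 : Fin m → ℚ, Injective ℓ1 ∧ Good f g Z ℓ1 ∧ ∀ w ∈ Z, ℓ1 c ≤ ℓ1 w := by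
  classical
  induction n with
  | zero =>
    intro ℓ hℓ hg h0
    refine ⟨ℓ, hℓ, hg, fun w hw => ?_⟩
    rw [cnt, card_eq_zero, filter_eq_empty_iff] at h0
    exact not_lt.mp (h0 hw)
  | succ n ih =>
    intro ℓ hℓ hg h0
    obtain ⟨z, hz, hmin⟩ := exists_min_image Z ℓ ⟨c, hc⟩
    obtain ⟨v, hv⟩ := exists_above ℓ
    have hi : Injective (update ℓ z v) := upd_inj hℓ fun x _ => (hv x).ne
    have hcpt : Cpt f Z ℓ (update ℓ z v) := cpt_rot hf hA hZ hr hℓ hmin (fun w _ _ => hv w) hi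
    have hzc : c ≠ z := by
      rintro rfl
      have : cnt Z ℓ c = 0 := by
        rw [cnt, card_eq_zero, filter_eq_empty_iff]
        exact fun w hw => not_lt.mpr (hmin w hw)
      omega
    apply ih (update ℓ z v) hi (hg.of_cpt hcpt)
    have : (Z.filter fun w => update ℓ z v w < update ℓ z v c) =
        (Z.filter fun w => ℓ w < ℓ c).erase z := by
      ext w
      rw [mem_filter, mem_erase, mem_filter, update_of_ne hzc]
      by_cases hw : w = z
      · subst hw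
        simp only [update_self, ne_eq, not_true_eq_false, false_and, iff_false, not_and, not_lt]
        exact fun _ => (hv c).le
      · rw [update_of_ne hw]
        simp [hw]
    have hmem : z ∈ Z.filter fun w => ℓ w < ℓ c := by
      rw [mem_filter]
      exact ⟨hz, lt_of_le_of_ne (hmin c hc) fun h => hzc (hℓ h).symm⟩
    unfold cnt at h0 ⊢
    rw [this, card_erase_of_mem hmem, h0]
    rfl

/-- the number of elements at each end which are not controlled -/
def endB (k : ℕ) : ℕ := 3 * ((k + 1) * (k + 1))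

/-- Normalization. -/
theorem norm {f g : (Fin m → A) → B} (hf : DetCS f)
    (hA : ∀ (b : Fin m → A) (U : Finset (Fin m)), (∀ u ∈ U, IsSing b u) → U.card ≤ k + 1)
    (hk : 1 ≤ k) (hG : grp f hf k ≠ ⊤) {Z0 Z W : Finset (Fin m)} (hW0 : W ⊆ Z0) (hWZ : W ⊆ Z)
    {ℓ0 ℓ : Fin m → ℚ} (h0 : Injective ℓ0) (hℓ : Injective ℓ) (hg0 : Good f g Z0 ℓ0)
    (hg : Good f g Z ℓ) (hcard : 7 * k * (7 * k) + 1 < W.card) :
    ∃ ℓ' : Fin m → ℚ, Injective ℓ' ∧ Good f g Z ℓ' ∧
      ∀ z ∈ W, endB k < cnt W ℓ0 z → cnt W ℓ0 z + endB k + 1 < W.card →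
        ∀ w ∈ W, (ℓ0 w < ℓ0 z ↔ ℓ' w < ℓ' z) := by
  classical
  have hZc : W.card ≤ Z.card := card_le_card hWZ
  have hk7 : k + 1 ≤ 7 * k * (7 * k) := by nlinarith
  have pat : ∀ ℓ' : Fin m → ℚ, Good f g Z ℓ' → Pat (grp f hf k) W ℓ0 ℓ' := fun ℓ' h' =>
    pat_of_cpt hf (Good.cpt (hg0.mono hW0) (h'.mono hWZ))
  by_cases hR : cyc 0 (Fin.last k) ∈ grp f hf k
  · obtain ⟨c, hc, hmin⟩ := exists_min_image W ℓ0 (card_pos.mp (by omega))
    obtain ⟨ℓ1, hi1, hg1, hc1⟩ := rotate_to hf hA (by omega) hR (hWZ hc) _ ℓ hℓ hg rfl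
    have fin : ∀ ℓ' : Fin m → ℚ, Injective ℓ' → Good f g Z ℓ' → Inc W ℓ0 ℓ' →
        ∃ ℓ' : Fin m → ℚ, Injective ℓ' ∧ Good f g Z ℓ' ∧
      ∀ z ∈ W, endB k < cnt W ℓ0 z → cnt W ℓ0 z + endB k + 1 < W.card →
        ∀ w ∈ W, (ℓ0 w < ℓ0 z ↔ ℓ' w < ℓ' z) := by
      intro ℓ' hi' hg' hinc
      exact ⟨ℓ', hi', hg', fun z hz _ _ w hw => ⟨hinc w hw z hz, hinc.symm h0 w hw z hz⟩⟩
    have hce : 7 * k * (7 * k) < (W.erase c).card := by
      rw [card_erase_of_mem hc]; omega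
    obtain ⟨T, hT, hTc, hTi | hTi⟩ := es h0 hi1 (W.erase c) hce
    · exact fin ℓ1 hi1 hg1 (inc_of_rot hk hG hR (pat ℓ1 hg1) h0 hi1
        (hT.trans (erase_subset _ _)) hTi (by omega) hc hmin (fun w hw => hc1 w (hWZ hw)))
    · have hrev := rev_mem (pat ℓ1 hg1) h0 (hT.trans (erase_subset _ _)) hTi (by omega)
      have hg2 : Good f g Z (neg ℓ1) := hg1.of_cpt (cpt_neg hf hA (by omega) hrev hi1)
      obtain ⟨v, hv⟩ := exists_below (neg ℓ1)
      have hi3 : Injective (update (neg ℓ1) c v) := upd_inj (neg_inj hi1) fun x _ => (hv x).ne'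
      have e1 : update (update (neg ℓ1) c v) c (neg ℓ1 c) = neg ℓ1 := by
        rw [update_idem, update_eq_self]
      have hcpt : Cpt f Z (update (neg ℓ1) c v) (update (update (neg ℓ1) c v) c (neg ℓ1 c)) := by
        apply cpt_rot hf hA (by omega) hR hi3
        · intro w _
          rw [update_self]
          by_cases hw : w = c
          · rw [hw, update_self]
          · rw [update_of_ne hw]; exact (hv w).le
        · intro w hw hwc
          rw [update_of_ne hwc, neg_lt]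
          exact lt_of_le_of_ne (hc1 w hw) fun h => hwc (hi1 h).symm
        · rw [e1]; exact neg_inj hi1
      rw [e1] at hcpt
      have hg3 : Good f g Z (update (neg ℓ1) c v) := hg2.of_cpt fun b hb => (hcpt b hb).symm
      refine fin _ hi3 hg3 (inc_of_rot hk hG hR (pat _ hg3) h0 hi3
        (hT.trans (erase_subset _ _)) ?_ (by omega) hc hmin ?_)
      · intro s hs t ht hst
        have h1 : s ≠ c := (mem_erase.mp (hT hs)).1
        have h2 : t ≠ c := (mem_erase.mp (hT ht)).1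
        rw [update_of_ne h1, update_of_ne h2]
        exact hTi s hs t ht hst
      · intro w _
        rw [update_self]
        by_cases hw : w = c
        · rw [hw, update_self]
        · rw [update_of_ne hw]; exact (hv w).le
  · have fin : ∀ ℓ' : Fin m → ℚ, Injective ℓ' → Good f g Z ℓ' → ∀ T ⊆ W, Inc T ℓ0 ℓ' →
        7 * k < T.card → ∃ ℓ' : Fin m → ℚ, Injective ℓ' ∧ Good f g Z ℓ' ∧
      ∀ z ∈ W, endB k < cnt W ℓ0 z → cnt W ℓ0 z + endB k + 1 < W.card →
        ∀ w ∈ W, (ℓ0 w < ℓ0 z ↔ ℓ' w < ℓ' z) := by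
      intro ℓ' hi' hg' T hTW hinc hTc
      refine ⟨ℓ', hi', hg', fun z hz h1 h2 w hw => ?_⟩
      exact pivot hk hG hR (pat _ hg') h0 hi' hTW hinc (by omega) hz hw h1 h2
    obtain ⟨T, hT, hTc, hTi | hTi⟩ := es h0 hℓ W (by omega : 7 * k * (7 * k) < W.card)
    · exact fin ℓ hℓ hg T hT hTi hTc
    · have hrev := rev_mem (pat ℓ hg) h0 hT hTi (by omega)
      have hg2 : Good f g Z (neg ℓ) := hg.of_cpt (cpt_neg hf hA (by omega) hrev hℓ)
      exact fin _ (neg_inj hℓ) hg2 T hT hTi hTc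

end Pool.Agent.J6H12.Rec
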