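import Pool.Agent.J6H12.Rec.Grp
import Pool.Agent.R795.Min.ES

/-!
# Patterns between two orders
-/

open Equiv Function Finset

namespace Pool.Agent.J6H12.Rec

variable {k m : ℕ}

/-- all patterns of size `k + 1` between the orders `ℓ` and `ℓ'` of `W` lie in `G` -/
def Pat (G : Subgroup (Perm (Fin (k + 1)))) (W : Finset (Fin m)) (ℓ ℓ' : Fin m → ℚ) : Prop :=
  ∀ e : Fin (k + 1) → Fin m, (∀ i, e i ∈ W) → StrictMono (ℓ ∘ e) →
    ∀ π : Perm (Fin (k + 1)), StrictMono (ℓ' ∘ e ∘ π) → π ∈ G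

theorem Pat.mono {G : Subgroup (Perm (Fin (k + 1)))} {W V : Finset (Fin m)}
    {ℓ ℓ' : Fin m → ℚ} (h : Pat G W ℓ ℓ') (hV : V ⊆ W) : Pat G V ℓ ℓ' :=
  fun e he hl π hπ => h e (fun i => hV (he i)) hl π hπ

theorem Pat.symm {G : Subgroup (Perm (Fin (k + 1)))} {W : Finset (Fin m)}
    {ℓ ℓ' : Fin m → ℚ} (h : Pat G W ℓ ℓ') : Pat G W ℓ' ℓ := by
  intro e he hl π hπ
  have := h (e ∘ π) (fun i => he _) hπ π⁻¹ (by
    have e1 : ℓ' ∘ (e ∘ π) ∘ (π⁻¹ : Perm _) = ℓ' ∘ e := by
      funext i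
      simp
    rw [e1]
    exact hl)
  exact inv_mem_iff.mp this

/-- `T` is increasing -/
def Inc (T : Finset (Fin m)) (ℓ ℓ' : Fin m → ℚ) : Prop :=
  ∀ s ∈ T, ∀ t ∈ T, ℓ s < ℓ t → ℓ' s < ℓ' t

/-- number of elements of `T` below `x` -/
def cnt (T : Finset (Fin m)) (ℓ : Fin m → ℚ) (x : Fin m) : ℕ := (T.filter fun t => ℓ t < ℓ x).card

theorem Inc.mono {T S : Finset (Fin m)} {ℓ ℓ' : Fin m → ℚ} (h : Inc T ℓ ℓ') (hS : S ⊆ T) :
    Inc S ℓ ℓ' := fun s hs t ht => h s (hS hs) t (hS ht)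

theorem Inc.symm {T : Finset (Fin m)} {ℓ ℓ' : Fin m → ℚ} (h : Inc T ℓ ℓ') (hℓ : Injective ℓ) :
    Inc T ℓ' ℓ := by
  intro s hs t ht hst
  rcases lt_trichotomy (ℓ s) (ℓ t) with h1 | h1 | h1
  · exact h1
  · rw [hℓ h1] at hst
    exact absurd hst (lt_irrefl _)
  · exact absurd (h t ht s hs h1) hst.asymm

theorem cnt_mono (T : Finset (Fin m)) (ℓ : Fin m → ℚ) {x y : Fin m} (h : ℓ x ≤ ℓ y) :
    cnt T ℓ x ≤ cnt T ℓ y := by
  apply card_le_card
  intro t
  simp only [mem_filter]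
  rintro ⟨h1, h2⟩
  exact ⟨h1, h2.trans_le h⟩

theorem cnt_lt (T : Finset (Fin m)) (ℓ : Fin m → ℚ) {x y : Fin m} (hx : x ∈ T) (h : ℓ x < ℓ y) :
    cnt T ℓ x < cnt T ℓ y := by
  apply card_lt_card
  rw [Finset.ssubset_iff_of_subset]
  · exact ⟨x, by simp [hx, h], by simp⟩
  · intro t
    simp only [mem_filter]
    rintro ⟨h1, h2⟩
    exact ⟨h1, h2.trans h⟩

theorem cnt_le (T : Finset (Fin m)) (ℓ : Fin m → ℚ) (x : Fin m) : cnt T ℓ x ≤ T.card :=
  card_filter_le _ _

theorem cnt_lt_card (T : Finset (Fin m)) (ℓ : Fin m → ℚ) {x : Fin m} (hx : x ∈ T) :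
    cnt T ℓ x < T.card := by
  apply card_lt_card
  rw [Finset.ssubset_iff_of_subset (filter_subset _ _)]
  exact ⟨x, hx, by simp⟩

/-- enumeration of a finite set in the order `ℓ` -/
theorem exists_enum (T : Finset (Fin m)) {ℓ : Fin m → ℚ} (hℓ : Injective ℓ) {t : ℕ}
    (ht : T.card = t) :
    ∃ e : Fin t → Fin m, (∀ i, e i ∈ T) ∧ StrictMono (ℓ ∘ e) ∧ (∀ x ∈ T, ∃ i, e i = x) ∧
      ∀ x i, ℓ (e i) < ℓ x ↔ (i : ℕ) < cnt T ℓ x := by
  classical
  set f := T.orderIsoOfFin ht with hf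
  set e0 : Fin t → Fin m := fun i => f i with he0
  set σ := Tuple.sort (ℓ ∘ e0) with hσ
  set e := e0 ∘ σ with he
  have inj0 : Injective e0 := fun i j h => f.injective (Subtype.ext h)
  have inje : Injective e := inj0.comp σ.injective
  have mono : StrictMono (ℓ ∘ e) := by
    have h1 : Monotone (ℓ ∘ e) := Tuple.monotone_sort (ℓ ∘ e0)
    exact h1.strictMono_of_injective (hℓ.comp inje)
  have mem : ∀ i, e i ∈ T := fun i => (f (σ i)).2
  have surj : ∀ x ∈ T, ∃ i, e i = x := by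
    intro x hx
    refine ⟨σ.symm (f.symm ⟨x, hx⟩), ?_⟩
    simp [he, he0]
  refine ⟨e, mem, mono, surj, ?_⟩
  intro x i
  have key : cnt T ℓ x = (univ.filter fun j : Fin t => ℓ (e j) < ℓ x).card := by
    rw [cnt, ← card_image_of_injective _ inje]
    congr 1
    ext y
    simp only [mem_filter, mem_image, mem_univ, true_and]
    constructor
    · rintro ⟨h1, h2⟩
      obtain ⟨j, rfl⟩ := surj y h1
      exact ⟨j, h2, rfl⟩
    · rintro ⟨j, h1, rfl⟩
      exact ⟨mem j, h1⟩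
  rw [key]
  constructor
  · intro h
    have : (Finset.Iic i) ⊆ univ.filter fun j : Fin t => ℓ (e j) < ℓ x := by
      intro j hj
      rw [mem_Iic] at hj
      simp only [mem_filter, mem_univ, true_and]
      exact (mono.monotone hj).trans_lt h
    have := card_le_card this
    rw [Fin.card_Iic] at this
    omega
  · intro h
    by_contra hn
    have : (univ.filter fun j : Fin t => ℓ (e j) < ℓ x) ⊆ Finset.Iio i := by
      intro j hj
      rw [mem_Iio]
      simp only [mem_filter, mem_univ, true_and] at hj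
      by_contra hji
      push Not at hji hn
      exact absurd (hn.trans (mono.monotone hji)) (not_le.mpr hj)
    have := card_le_card this
    rw [Fin.card_Iio] at this
    omega

theorem strictMono_insertNth (α : Fin (k + 1)) (a : ℚ) (u : Fin k → ℚ) (hu : StrictMono u)
    (h1 : ∀ i : Fin k, i.castSucc < α → u i < a) (h2 : ∀ i : Fin k, α ≤ i.castSucc → a < u i) :
    StrictMono (α.insertNth a u : Fin (k + 1) → ℚ) := by
  intro x y hxy
  rcases Fin.eq_self_or_eq_succAbove α x with rfl | ⟨i, rfl⟩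
  · rcases Fin.eq_self_or_eq_succAbove x y with rfl | ⟨j, rfl⟩
    · exact absurd hxy (lt_irrefl _)
    · rw [Fin.insertNth_apply_same, Fin.insertNth_apply_succAbove]
      exact h2 j (Fin.lt_succAbove_iff_le_castSucc x j |>.mp hxy)
  · rcases Fin.eq_self_or_eq_succAbove α y with rfl | ⟨j, rfl⟩
    · rw [Fin.insertNth_apply_same, Fin.insertNth_apply_succAbove]
      exact h1 i (Fin.succAbove_lt_iff_castSucc_lt y i |>.mp hxy)
    · rw [Fin.insertNth_apply_succAbove, Fin.insertNth_apply_succAbove]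
      exact hu (Fin.succAbove_lt_succAbove_iff.mp hxy)

theorem insertNth_comp_cyc {X : Type*} (α α' : Fin (k + 1)) (x : X) (u : Fin k → X) :
    (α.insertNth x u : Fin (k + 1) → X) ∘ cyc α α' = (α'.insertNth x u : Fin (k + 1) → X) := by
  funext z
  rcases Fin.eq_self_or_eq_succAbove α' z with rfl | ⟨i, rfl⟩
  · simp [cyc_self]
  · simp [cyc_succAbove]

/-- The pattern of a point inserted in an increasing set. -/
theorem Pat.ins {G : Subgroup (Perm (Fin (k + 1)))} {W : Finset (Fin m)}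
    {ℓ ℓ' : Fin m → ℚ} (h : Pat G W ℓ ℓ') (hℓ : Injective ℓ) (hℓ' : Injective ℓ')
    {T : Finset (Fin m)} (hT : T ⊆ W) (hinc : Inc T ℓ ℓ') {x : Fin m} (hx : x ∈ W) (hxT : x ∉ T)
    {α α' : Fin (k + 1)} (hα : α ≤ α') (h1 : (α : ℕ) ≤ cnt T ℓ x)
    (h2 : (α' : ℕ) + cnt T ℓ x ≤ cnt T ℓ' x + α) (h3 : k + cnt T ℓ' x ≤ T.card + α') :
    cyc α α' ∈ G := by
  obtain ⟨τ, τmem, τmono, τsurj, τlt⟩ := exists_enum T hℓ rfl
  have τmono' : StrictMono (ℓ' ∘ τ) := fun i j hij =>
    hinc _ (τmem i) _ (τmem j) (τmono hij)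
  have τlt' : ∀ x i, ℓ' (τ i) < ℓ' x ↔ (i : ℕ) < cnt T ℓ' x := by
    obtain ⟨τ', τmem', τmono2, τsurj', τlt'⟩ := exists_enum T hℓ' rfl
    have : τ = τ' := by
      have hr : Set.range (ℓ' ∘ τ) = Set.range (ℓ' ∘ τ') := by
        ext y
        constructor
        · rintro ⟨i, rfl⟩
          obtain ⟨j, hj⟩ := τsurj' (τ i) (τmem i)
          exact ⟨j, by simp [hj]⟩
        · rintro ⟨i, rfl⟩
          obtain ⟨j, hj⟩ := τsurj (τ' i) (τmem' i)
          exact ⟨j, by simp [hj]⟩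
      have := (StrictMono.range_inj τmono' τmono2).mp hr
      funext i
      exact hℓ' (congrFun this i)
    rw [this]
    exact τlt'
  set p := cnt T ℓ x with hp
  set p' := cnt T ℓ' x with hp'
  have hp't : p' ≤ T.card := cnt_le _ _ _
  have hαk : (α : ℕ) ≤ k := by have := α.2; omega
  have hα'k : (α' : ℕ) ≤ k := by have := α'.2; omega
  have hαα : (α : ℕ) ≤ α' := hα
  set κ0 : ℕ → ℕ := fun i => if i < (α : ℕ) then i else if i < (α' : ℕ) then p + (i - α)
    else p' + (i - α') with hκ0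
  have κlt : ∀ i < k, κ0 i < T.card := by
    intro i hi
    simp only [hκ0]
    split_ifs <;> omega
  set κ : Fin k → Fin T.card := fun i => ⟨κ0 i, κlt i i.2⟩ with hκ
  have κmono : StrictMono κ := by
    intro i j hij
    rw [Fin.lt_def] at hij ⊢
    simp only [hκ, hκ0]
    split_ifs <;> omega
  have ne : ∀ i, τ i ≠ x := fun i h' => hxT (h' ▸ τmem i)
  set e : Fin (k + 1) → Fin m := α.insertNth x (τ ∘ κ) with he
  have emem : ∀ i, e i ∈ W := by
    intro i
    rcases Fin.eq_self_or_eq_succAbove α i with rfl | ⟨j, rfl⟩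
    · simp [he, hx]
    · simp only [he, Fin.insertNth_apply_succAbove]
      exact hT (τmem _)
  have comp : ∀ (f : Fin m → ℚ) (β : Fin (k + 1)),
      f ∘ (β.insertNth x (τ ∘ κ) : Fin (k + 1) → Fin m) =
      (β.insertNth (f x) (f ∘ τ ∘ κ) : Fin (k + 1) → ℚ) := by
    intro f β
    funext z
    rcases Fin.eq_self_or_eq_succAbove β z with rfl | ⟨i, rfl⟩
    · simp
    · simp
  refine h e emem ?_ (cyc α α') ?_
  · rw [he, comp]
    apply strictMono_insertNth _ _ _ (τmono.comp κmono)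
    · intro i hi
      rw [Fin.lt_def] at hi
      simp only [Function.comp]
      rw [τlt x (κ i)]
      simp only [hκ, hκ0]
      simp only [Fin.val_castSucc] at hi
      rw [if_pos hi]
      omega
    · intro i hi
      rw [Fin.le_def] at hi
      simp only [Fin.val_castSucc] at hi
      refine lt_of_le_of_ne ?_ (fun h' => ne _ (hℓ h'.symm))
      simp only [Function.comp]
      rw [← not_lt, τlt x (κ i)]
      simp only [hκ, hκ0]
      split_ifs <;> omega
  · rw [← Function.comp_assoc, Function.comp_assoc, he, insertNth_comp_cyc, comp]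
    apply strictMono_insertNth _ _ _ (τmono'.comp κmono)
    · intro i hi
      rw [Fin.lt_def] at hi
      simp only [Function.comp]
      rw [τlt' x (κ i)]
      simp only [hκ, hκ0]
      simp only [Fin.val_castSucc] at hi
      split_ifs <;> omega
    · intro i hi
      rw [Fin.le_def] at hi
      simp only [Fin.val_castSucc] at hi
      refine lt_of_le_of_ne ?_ (fun h' => ne _ (hℓ' h'.symm))
      simp only [Function.comp]
      rw [← not_lt, τlt' x (κ i)]
      simp only [hκ, hκ0]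
      split_ifs <;> omega

end Pool.Agent.J6H12.Rec
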