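import Pool.Agent.J6H12.Rec.Low

/-!
# The middle elements are not involved in inversions
-/

open Equiv Function Finset

namespace Pool.Agent.J6H12.Rec

variable {k m : ℕ} {G : Subgroup (Perm (Fin (k + 1)))} {W : Finset (Fin m)} {ℓ ℓ' : Fin m → ℚ}

/-- a largest increasing subset -/
def MaxInc (T W : Finset (Fin m)) (ℓ ℓ' : Fin m → ℚ) : Prop :=
  T ⊆ W ∧ Inc T ℓ ℓ' ∧ ∀ S ⊆ W, Inc S ℓ ℓ' → S.card ≤ T.card

theorem exists_maxInc (W : Finset (Fin m)) (ℓ ℓ' : Fin m → ℚ) : ∃ T, MaxInc T W ℓ ℓ' := by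
  classical
  obtain ⟨T, hT, hm⟩ := exists_max_image (W.powerset.filter fun T => Inc T ℓ ℓ') card
    ⟨∅, mem_filter.mpr ⟨by simp, fun s hs => by simp at hs⟩⟩
  rw [mem_filter, mem_powerset] at hT
  exact ⟨T, hT.1, hT.2, fun S hS hi => hm S (by rw [mem_filter, mem_powerset]; exact ⟨hS, hi⟩)⟩

theorem MaxInc.ne {T : Finset (Fin m)} (h : MaxInc T W ℓ ℓ') (hℓ : Injective ℓ)
    (hℓ' : Injective ℓ') {z : Fin m} (hz : z ∈ W) (hzT : z ∉ T) : cnt T ℓ z ≠ cnt T ℓ' z := by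
  classical
  intro he
  have := h.2.2 (insert z T) (insert_subset hz h.1) (inc_insert h.2.1 hℓ hℓ' hzT he)
  rw [card_insert_of_notMem hzT] at this
  omega

theorem inc_neg_iff : Inc W (neg ℓ) (neg ℓ') ↔ Inc W ℓ ℓ' := by
  constructor
  · intro h
    have := h.neg
    rwa [neg_neg', neg_neg'] at this
  · exact fun h => h.neg

theorem MaxInc.neg {T : Finset (Fin m)} (h : MaxInc T W ℓ ℓ') :
    MaxInc T W (Rec.neg ℓ) (Rec.neg ℓ') := by
  refine ⟨h.1, h.2.1.neg, fun S hS hi => h.2.2 S hS ?_⟩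
  exact inc_neg_iff.mp hi

/-- the classification of the elements relative to a largest increasing set -/
theorem MaxInc.cls (hk : 1 ≤ k) (hG : G ≠ ⊤) (hR : cyc 0 (Fin.last k) ∉ G) (h : Pat G W ℓ ℓ')
    (hℓ : Injective ℓ) (hℓ' : Injective ℓ') {T : Finset (Fin m)} (hT : MaxInc T W ℓ ℓ')
    (hc : 6 * k ≤ T.card) {z : Fin m} (hz : z ∈ W) :
    (cnt T ℓ z = cnt T ℓ' z ∧ z ∈ T) ∨ (z ∉ T ∧ cnt T ℓ z < 2 * k ∧ cnt T ℓ' z < 2 * k) ∨
      (z ∉ T ∧ T.card < cnt T ℓ z + 2 * k ∧ T.card < cnt T ℓ' z + 2 * k) := by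
  by_cases hzT : z ∈ T
  · exact Or.inl ⟨cnt_inc hT.2.1 hℓ hzT, hzT⟩
  · right
    have hne := hT.ne hℓ hℓ' hz hzT
    have h1 : ¬ ((2 * k ≤ cnt T ℓ z ∧ cnt T ℓ z + 2 * k ≤ T.card) ∨
      (2 * k ≤ cnt T ℓ' z ∧ cnt T ℓ' z + 2 * k ≤ T.card)) :=
      fun h' => hG (top_of_mid' hk h hℓ hℓ' hT.1 hT.2.1 hz hzT hne h')
    have h2 : ¬ cnt T ℓ z + k ≤ cnt T ℓ' z :=
      fun h' => hR (rot_of_gap h hℓ hℓ' hT.1 hT.2.1 hz hzT h')
    have h3 : ¬ cnt T ℓ' z + k ≤ cnt T ℓ z :=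
      fun h' => hR (rot_of_gap' h hℓ hℓ' hT.1 hT.2.1 hz hzT h')
    have : (cnt T ℓ z < 2 * k ∧ cnt T ℓ' z < 2 * k) ∨
      (T.card < cnt T ℓ z + 2 * k ∧ T.card < cnt T ℓ' z + 2 * k) := by omega
    tauto

theorem cnt_eq_of_enum {T : Finset (Fin m)} {t : ℕ} (ht : T.card = t) {e : Fin t → Fin m}
    (he : ∀ i, e i ∈ T) (hm : StrictMono (ℓ ∘ e))
    (hlt : ∀ x i, ℓ (e i) < ℓ x ↔ (i : ℕ) < cnt T ℓ x) (j : Fin t) :
    cnt T ℓ (e j) = j := by
  have h2 : cnt T ℓ (e j) < T.card := cnt_lt_card T ℓ (he j)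
  have h3 : ∀ i : Fin t, (i : ℕ) < cnt T ℓ (e j) ↔ i < j := by
    intro i
    rw [← hlt]
    exact hm.lt_iff_lt
  by_contra hne
  rcases lt_or_gt_of_ne hne with h | h
  · have := (h3 ⟨cnt T ℓ (e j), by omega⟩).mpr (by rw [Fin.lt_def]; exact h)
    simp at this
  · exact lt_irrefl _ ((h3 j).mp h)

/-- the upper part of an increasing set -/
theorem card_upper {T : Finset (Fin m)} (hℓ : Injective ℓ) (c : ℕ) :
    T.card ≤ (T.filter fun t => c ≤ cnt T ℓ t).card + c := by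
  classical
  obtain ⟨e, emem, emono, esurj, elt⟩ := exists_enum T hℓ rfl
  have einj : Injective e := emono.injective.of_comp
  have h1 : (T.filter fun t => ¬ c ≤ cnt T ℓ t) ⊆
      (univ.filter fun i : Fin T.card => (i : ℕ) < c).image e := by
    intro x
    rw [mem_filter]
    rintro ⟨hx, h⟩
    obtain ⟨i, rfl⟩ := esurj x hx
    rw [cnt_eq_of_enum rfl emem emono elt] at h
    exact mem_image.mpr ⟨i, by simpa using h, rfl⟩
  have h2 := card_le_card h1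
  rw [card_image_of_injective _ einj, Fin.card_filter_val_lt] at h2
  have h3 := card_filter_add_card_filter_not (s := T) (fun t => c ≤ cnt T ℓ t)
  have h4 : min T.card c ≤ c := min_le_right _ _
  omega

theorem low_main (hk : 1 ≤ k) (hG : G ≠ ⊤) (hR : cyc 0 (Fin.last k) ∉ G) (h : Pat G W ℓ ℓ')
    (hℓ : Injective ℓ) (hℓ' : Injective ℓ') {T : Finset (Fin m)} (hT : MaxInc T W ℓ ℓ')
    (hc : 6 * k ≤ T.card) {x y : Fin m} (hx : x ∈ W) (hy : y ∈ W) (hxy : ℓ x < ℓ y)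
    (hyx : ℓ' y < ℓ' x) (hlow : cnt T ℓ y < 2 * k) :
    cnt W ℓ y ≤ 3 * ((k + 1) * (k + 1)) := by
  set U := T.filter fun t => 2 * k ≤ cnt T ℓ t with hU
  have hUT : U ⊆ T := filter_subset _ _
  have hUc : T.card ≤ U.card + 2 * k := card_upper hℓ _
  refine low_bound hG hR h hℓ hℓ' hx hy hxy hyx (hUT.trans hT.1) (hT.2.1.mono hUT) (by omega) ?_
  intro u hu v hv hvy
  have hu1 := (mem_filter.mp hu).2
  have hu2 : cnt T ℓ' u = cnt T ℓ u := (cnt_inc hT.2.1 hℓ (hUT hu)).symm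
  have hv1 : cnt T ℓ v < 2 * k := (cnt_mono T ℓ hvy).trans_lt hlow
  have hv2 : cnt T ℓ' v < 2 * k := by
    rcases hT.cls hk hG hR h hℓ hℓ' hc hv with h' | h' | h' <;> omega
  constructor
  · by_contra hn
    have := cnt_mono T ℓ (not_lt.mp hn)
    omega
  · by_contra hn
    have := cnt_mono T ℓ' (not_lt.mp hn)
    omega

theorem low_or_high (hk : 1 ≤ k) (hG : G ≠ ⊤) (hR : cyc 0 (Fin.last k) ∉ G) (h : Pat G W ℓ ℓ')
    (hℓ : Injective ℓ) (hℓ' : Injective ℓ') {T : Finset (Fin m)} (hT : MaxInc T W ℓ ℓ')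
    (hc : 6 * k ≤ T.card) {x y : Fin m} (hx : x ∈ W) (hy : y ∈ W) (hxy : ℓ x < ℓ y)
    (hyx : ℓ' y < ℓ' x) : cnt T ℓ y < 2 * k ∨ T.card < cnt T ℓ x + 2 * k := by
  have m1 := cnt_mono T ℓ hxy.le
  have m2 := cnt_mono T ℓ' hyx.le
  have c1 := hT.cls hk hG hR h hℓ hℓ' hc hx
  have c2 := hT.cls hk hG hR h hℓ hℓ' hc hy
  have hT2 : ¬ (x ∈ T ∧ y ∈ T) := fun h' => (hT.2.1 x h'.1 y h'.2 hxy).asymm hyx
  rcases c1 with c1 | c1 | c1 <;> rcases c2 with c2 | c2 | c2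
  · exact absurd ⟨c1.2, c2.2⟩ hT2
  all_goals omega

theorem cnt_add_neg (_hℓ : Injective ℓ) (T : Finset (Fin m)) (z : Fin m) :
    cnt T ℓ z + cnt T (neg ℓ) z ≤ T.card := by
  classical
  rw [cnt, cnt, ← card_union_of_disjoint]
  · apply card_le_card
    apply union_subset <;> exact filter_subset _ _
  · rw [disjoint_left]
    intro t
    simp only [mem_filter, neg_lt]
    rintro ⟨_, h1⟩ ⟨_, h2⟩
    exact h1.asymm h2

theorem card_le_cnt_add_neg (hℓ : Injective ℓ) (T : Finset (Fin m)) (z : Fin m) :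
    T.card ≤ cnt T ℓ z + cnt T (neg ℓ) z + 1 := by
  classical
  have h1 : T ⊆ ((T.filter fun t => ℓ t < ℓ z) ∪ (T.filter fun t => neg ℓ t < neg ℓ z)) ∪ {z} := by
    intro t ht
    rw [mem_union, mem_union, mem_filter, mem_filter, mem_singleton, neg_lt]
    rcases lt_trichotomy (ℓ t) (ℓ z) with h | h | h
    · exact Or.inl (Or.inl ⟨ht, h⟩)
    · exact Or.inr (hℓ h)
    · exact Or.inl (Or.inr ⟨ht, h⟩)
  calc T.card ≤ _ := card_le_card h1
    _ ≤ ((T.filter fun t => ℓ t < ℓ z) ∪ (T.filter fun t => neg ℓ t < neg ℓ z)).card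
        + ({z} : Finset (Fin m)).card := card_union_le _ _
    _ ≤ _ := by
      rw [card_singleton]
      have := card_union_le (T.filter fun t => ℓ t < ℓ z) (T.filter fun t => neg ℓ t < neg ℓ z)
      unfold cnt
      omega

/-- conjugation by the reversal -/
def rc (G : Subgroup (Perm (Fin (k + 1)))) : Subgroup (Perm (Fin (k + 1))) :=
  G.comap (MulAut.conj (Fin.revPerm : Perm (Fin (k + 1)))).toMonoidHom

theorem mem_rc {π : Perm (Fin (k + 1))} : π ∈ rc G ↔ Fin.revPerm * π * Fin.revPerm ∈ G := by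
  rw [rc, Subgroup.mem_comap]
  simp only [MulEquiv.coe_toMonoidHom, MulAut.conj_apply]
  rfl

theorem rev_mul_rev : (Fin.revPerm * Fin.revPerm : Perm (Fin (k + 1))) = 1 := by
  ext x; simp

theorem rc_ne_top (hG : G ≠ ⊤) : rc G ≠ ⊤ := by
  intro h
  apply hG
  rw [eq_top_iff]
  intro π _
  have : Fin.revPerm * π * Fin.revPerm ∈ rc G := by rw [h]; trivial
  rw [mem_rc] at this
  have e : Fin.revPerm * (Fin.revPerm * π * Fin.revPerm) * Fin.revPerm =
      (Fin.revPerm * Fin.revPerm) * π * (Fin.revPerm * Fin.revPerm) := by group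
  rw [e, rev_mul_rev, one_mul, mul_one] at this
  exact this

theorem rev_cyc (α α' : Fin (k + 1)) :
    Fin.revPerm * cyc α α' * Fin.revPerm = cyc α.rev α'.rev := by
  ext z
  rcases Fin.eq_self_or_eq_succAbove α'.rev z with rfl | ⟨i, rfl⟩
  · simp [cyc_self]
  · rw [cyc_succAbove, ← Fin.rev_rev i, ← Fin.rev_succAbove, ← Fin.rev_succAbove]
    simp [cyc_succAbove]

theorem rc_rot (hR : cyc 0 (Fin.last k) ∉ G) : cyc 0 (Fin.last k) ∉ rc G := by
  intro h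
  rw [mem_rc, rev_cyc] at h
  have := G.inv_mem h
  rw [cyc_inv] at this
  apply hR
  convert this using 2 <;> simp

theorem Pat.rc (h : Pat G W ℓ ℓ') : Pat (rc G) W (Rec.neg ℓ) (Rec.neg ℓ') := by
  intro e he hl π hπ
  rw [mem_rc]
  refine h (e ∘ Fin.revPerm) (fun i => he _) ?_ _ ?_
  · intro i j hij
    have := hl (show Fin.revPerm j < Fin.revPerm i by simpa using hij)
    simp only [Function.comp] at this
    rw [neg_lt] at this
    exact this
  · intro i j hij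
    have := hπ (show Fin.revPerm j < Fin.revPerm i by simpa using hij)
    simp only [Function.comp] at this
    rw [neg_lt] at this
    simpa using this

/-- In the case without rotations, middle elements are pivots. -/
theorem pivot (hk : 1 ≤ k) (hG : G ≠ ⊤) (hR : cyc 0 (Fin.last k) ∉ G) (h : Pat G W ℓ ℓ')
    (hℓ : Injective ℓ) (hℓ' : Injective ℓ') {T : Finset (Fin m)} (hTW : T ⊆ W)
    (hTi : Inc T ℓ ℓ') (hc : 6 * k ≤ T.card) {z w : Fin m} (hz : z ∈ W) (hw : w ∈ W)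
    (h1 : 3 * ((k + 1) * (k + 1)) < cnt W ℓ z)
    (h2 : cnt W ℓ z + 3 * ((k + 1) * (k + 1)) + 1 < W.card) : ℓ w < ℓ z ↔ ℓ' w < ℓ' z := by
  obtain ⟨T', hT'⟩ := exists_maxInc W ℓ ℓ'
  have hc' : 6 * k ≤ T'.card := hc.trans (hT'.2.2 T hTW hTi)
  have inv : ∀ x ∈ W, ∀ y ∈ W, ℓ x < ℓ y → ℓ' y < ℓ' x →
      cnt W ℓ y ≤ 3 * ((k + 1) * (k + 1)) ∨ cnt W (neg ℓ) x ≤ 3 * ((k + 1) * (k + 1)) := by
    intro x hx y hy hxy hyx
    rcases low_or_high hk hG hR h hℓ hℓ' hT' hc' hx hy hxy hyx with h' | h'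
    · exact Or.inl (low_main hk hG hR h hℓ hℓ' hT' hc' hx hy hxy hyx h')
    · right
      refine low_main hk (rc_ne_top hG) (rc_rot hR) h.rc (neg_inj hℓ) (neg_inj hℓ') hT'.neg hc'
        hy hx (neg_lt.mpr hxy) (neg_lt.mpr hyx) ?_
      have := cnt_add_neg hℓ T' x
      omega
  have key : ∀ x ∈ W, ℓ x ≤ ℓ z → ¬ cnt W (neg ℓ) x ≤ 3 * ((k + 1) * (k + 1)) := by
    intro x _ hxz h'
    have a1 := card_le_cnt_add_neg hℓ W z
    have a2 : cnt W (neg ℓ) z ≤ cnt W (neg ℓ) x :=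
      cnt_mono W (neg ℓ) (by simpa [neg] using hxz)
    omega
  have key2 : ∀ y ∈ W, ℓ z ≤ ℓ y → ¬ cnt W ℓ y ≤ 3 * ((k + 1) * (k + 1)) := by
    intro y _ hzy h'
    have := cnt_mono W ℓ hzy
    omega
  constructor
  · intro hlt
    by_contra hn
    have hne : z ≠ w := fun h' => by rw [h'] at hlt; exact lt_irrefl _ hlt
    have hlt' : ℓ' z < ℓ' w := lt_of_le_of_ne (not_lt.mp hn) (fun h' => hne (hℓ' h'))
    rcases inv w hw z hz hlt hlt' with h' | h'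
    · exact key2 z hz le_rfl h'
    · exact key w hw hlt.le h'
  · intro hlt
    by_contra hn
    have hne : z ≠ w := fun h' => by rw [h'] at hlt; exact lt_irrefl _ hlt
    have hlt' : ℓ z < ℓ w := lt_of_le_of_ne (not_lt.mp hn) (fun h' => hne (hℓ h'))
    rcases inv z hz w hw hlt' hlt with h' | h'
    · exact key2 w hw hlt'.le h'
    · exact key z hz le_rfl h'

/-- In the case with rotations, two orders with the same first element have no inversions. -/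
theorem inc_of_rot (hk : 1 ≤ k) (hG : G ≠ ⊤) (hR : cyc 0 (Fin.last k) ∈ G) (h : Pat G W ℓ ℓ')
    (hℓ : Injective ℓ) (hℓ' : Injective ℓ') {T : Finset (Fin m)} (hTW : T ⊆ W)
    (hTi : Inc T ℓ ℓ') (hc : 6 * k ≤ T.card) {c : Fin m} (hcW : c ∈ W)
    (hc1 : ∀ w ∈ W, ℓ c ≤ ℓ w) (hc2 : ∀ w ∈ W, ℓ' c ≤ ℓ' w) : Inc W ℓ ℓ' := by
  classical
  obtain ⟨T', hT'⟩ := exists_maxInc W ℓ ℓ'
  have hc' : 6 * k ≤ T'.card := hc.trans (hT'.2.2 T hTW hTi)
  have z1 : ∀ (S : Finset (Fin m)), S ⊆ W → cnt S ℓ c = 0 := by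
    intro S hS
    rw [cnt, card_eq_zero, filter_eq_empty_iff]
    exact fun v hv => not_lt.mpr (hc1 v (hS hv))
  have z2 : ∀ (S : Finset (Fin m)), S ⊆ W → cnt S ℓ' c = 0 := by
    intro S hS
    rw [cnt, card_eq_zero, filter_eq_empty_iff]
    exact fun v hv => not_lt.mpr (hc2 v (hS hv))
  have hcT : c ∈ T' := by
    by_contra hn
    exact hT'.ne hℓ hℓ' hcW hn ((z1 T' hT'.1).trans (z2 T' hT'.1).symm)
  have gen : ∀ (a b : Fin m → ℚ), Injective a → Injective b → Pat G W a b → Inc T' a b →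
      (∀ w ∈ W, a c ≤ a w) → ∀ z ∈ W, z ∉ T' → cnt T' a z < cnt T' b z → False := by
    intro a b ha hb hab hinc hca z hz hzT hlt
    have hne : c ≠ z := fun h' => hzT (h' ▸ hcT)
    have hp : 1 ≤ cnt T' a z := by
      rw [cnt, Nat.one_le_iff_ne_zero, ← Nat.pos_iff_ne_zero, card_pos]
      refine ⟨c, mem_filter.mpr ⟨hcT, lt_of_le_of_ne (hca z hz) (fun h' => hne (ha h'))⟩⟩
    have hle := cnt_le T' b z
    by_cases hbig : cnt T' a z + k ≤ cnt T' b z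
    · have h1 : cyc (⟨1, by omega⟩ : Fin (k + 1)) (Fin.last k) ∈ G := by
        apply hab.ins ha hb hT'.1 hinc hz hzT (Fin.le_last _)
        · exact hp
        · simp; omega
        · simp; omega
      apply hG
      refine top_of_rot G hR ⟨0, by omega⟩ ?_
      have := G.mul_mem hR (G.inv_mem h1)
      rw [cyc_inv, cyc_mul] at this
      exact this
    · apply hG
      refine top_of_rot G hR ⟨min (cnt T' a z) (k - 1), by omega⟩ ?_
      apply hab.ins ha hb hT'.1 hinc hz hzT (Fin.castSucc_lt_succ).le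
      · simp
      · simp; omega
      · simp; omega
  have : W ⊆ T' := by
    intro z hz
    by_contra hzT
    have hne := hT'.ne hℓ hℓ' hz hzT
    rcases lt_or_gt_of_ne hne with h' | h'
    · exact gen ℓ ℓ' hℓ hℓ' h hT'.2.1 hc1 z hz hzT h'
    · exact gen ℓ' ℓ hℓ' hℓ h.symm (hT'.2.1.symm hℓ) hc2 z hz hzT h'
  exact hT'.2.1.mono this

end Pool.Agent.J6H12.Rec
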